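import Mathlib

/-! Slow Fibonacci walks: definitions and the criterion for down- and up-integers. -/

namespace Pool.Agent.H125e.SF

open Real
open scoped goldenRatio

/-- the `(a₁,a₂)`-Fibonacci walk: `w 1 = a₁`, `w 2 = a₂`, `w (k+2) = w (k+1) + w k` for `k ≥ 1`
(the value at index `0` is not used) -/
def walk (a₁ a₂ : ℕ) : ℕ → ℕ
  | 0 => 0
  | 1 => a₁
  | 2 => a₂
  | k + 3 => walk a₁ a₂ (k + 2) + walk a₁ a₂ (k + 1)

/-- the indices `s ≥ 1` at which some walk (with positive `a₁, a₂`) takes the value `n` -/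
def indices (n : ℕ) : Set ℕ := {s | 1 ≤ s ∧ ∃ a₁ a₂ : ℕ, 0 < a₁ ∧ 0 < a₂ ∧ walk a₁ a₂ s = n}

/-- `n ≥ 2` is a down-integer -/
def IsDown (n : ℕ) : Prop := 2 ≤ n ∧ ∃ s, IsGreatest (indices n) s ∧
  ∃ a₁ a₂ : ℕ, 0 < a₁ ∧ 0 < a₂ ∧ walk a₁ a₂ s = n ∧ (walk a₁ a₂ (s + 1) : ℤ) = ⌊φ * n⌋

/-- `n ≥ 2` is an up-integer -/
def IsUp (n : ℕ) : Prop := 2 ≤ n ∧ ∃ s, IsGreatest (indices n) s ∧
  ∃ a₁ a₂ : ℕ, 0 < a₁ ∧ 0 < a₂ ∧ walk a₁ a₂ s = n ∧ (walk a₁ a₂ (s + 1) : ℤ) = ⌈φ * n⌉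

theorem walk_eq (a b k : ℕ) : walk a b (k + 2) = Nat.fib k * a + Nat.fib (k + 1) * b ∧
    walk a b (k + 3) = Nat.fib (k + 1) * a + Nat.fib (k + 2) * b := by
  induction k with
  | zero => simp [walk]; ring
  | succ k ih =>
    obtain ⟨h1, h2⟩ := ih
    refine ⟨h2, ?_⟩
    rw [show k + 1 + 3 = (k + 1) + 3 from rfl, walk, show k + 1 + 2 = k + 3 from rfl,
      show k + 1 + 1 = k + 2 from rfl, h1, h2, Nat.fib_add_two (n := k + 1)]
    have := Nat.fib_add_two (n := k)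
    rw [this]
    ring

def A (j : ℕ) (n m : ℝ) : Prop := (φ ^ (4 * j + 2) + 1) * (φ * n - m) < √5 * n
def B (j : ℕ) (n m : ℝ) : Prop := (φ ^ (4 * j) - 1) * (m - φ * n) < √5 * n

theorem s5 : √5 = φ - ψ := by
  rw [Real.goldenRatio_sub_goldenConj]

theorem E1 (j : ℕ) (n m : ℝ) : √5 * φ ^ (2 * j) * (Nat.fib (2 * j + 1) * n - Nat.fib (2 * j) * m) =
    √5 * n + (φ ^ (4 * j) - 1) * (φ * n - m) := by
  have h0 : (√5 : ℝ) ≠ 0 := by positivity
  have e1 : √5 * (Nat.fib (2 * j + 1) : ℝ) = φ ^ (2 * j + 1) - ψ ^ (2 * j + 1) := by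
    rw [Real.coe_fib_eq]; field_simp
  have e2 : √5 * (Nat.fib (2 * j) : ℝ) = φ ^ (2 * j) - ψ ^ (2 * j) := by
    rw [Real.coe_fib_eq]; field_simp
  have e3 : φ ^ (2 * j) * ψ ^ (2 * j) = 1 := by
    rw [← mul_pow, Real.goldenRatio_mul_goldenConj, pow_mul]; norm_num
  have e4 : φ ^ (4 * j) = φ ^ (2 * j) * φ ^ (2 * j) := by rw [← pow_add]; congr 1; ring
  have e5 := s5
  rw [e4]
  rw [pow_succ] at e1
  rw [pow_succ] at e1
  linear_combination φ ^ (2 * j) * n * e1 - φ ^ (2 * j) * m * e2 + (m - ψ * n) * e3 - n * e5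

theorem E2 (j : ℕ) (n m : ℝ) :
    √5 * φ ^ (2 * j + 1) * (Nat.fib (2 * j + 1) * m - Nat.fib (2 * j + 2) * n) =
    √5 * n - (φ ^ (4 * j + 2) + 1) * (φ * n - m) := by
  have h0 : (√5 : ℝ) ≠ 0 := by positivity
  have e1 : √5 * (Nat.fib (2 * j + 1) : ℝ) = φ ^ (2 * j + 1) - ψ ^ (2 * j + 1) := by
    rw [Real.coe_fib_eq]; field_simp
  have e2 : √5 * (Nat.fib (2 * j + 2) : ℝ) = φ ^ (2 * j + 2) - ψ ^ (2 * j + 2) := by
    rw [Real.coe_fib_eq]; field_simp
  have e3 : φ ^ (2 * j + 1) * ψ ^ (2 * j + 1) = -1 := by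
    rw [← mul_pow, Real.goldenRatio_mul_goldenConj, pow_succ, pow_mul]; norm_num
  have e4 : φ ^ (4 * j + 2) = φ ^ (2 * j + 1) * φ ^ (2 * j + 1) := by
    rw [← pow_add]; congr 1; ring
  have e5 := s5
  rw [e4]
  rw [show 2 * j + 2 = (2 * j + 1) + 1 from rfl, pow_succ φ (2 * j + 1),
    pow_succ ψ (2 * j + 1)] at e2
  linear_combination φ ^ (2 * j + 1) * m * e1 - φ ^ (2 * j + 1) * n * e2 + (ψ * n - m) * e3 - n * e5

theorem cassini (j : ℕ) : (Nat.fib (2 * j + 1) : ℤ) ^ 2 - Nat.fib (2 * j) * Nat.fib (2 * j + 2) = 1 ∧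
    (Nat.fib (2 * j + 1) : ℤ) * Nat.fib (2 * j + 3) - Nat.fib (2 * j + 2) ^ 2 = 1 := by
  have h3 : ∀ j, (Nat.fib (2 * j + 3) : ℤ) = Nat.fib (2 * j + 1) + Nat.fib (2 * j + 2) := fun j => by
    rw [Nat.fib_add_two (n := 2 * j + 1)]; push_cast; ring
  induction j with
  | zero => simp; decide
  | succ j ih =>
    obtain ⟨h1, h2⟩ := ih
    have h4 : (Nat.fib (2 * j + 4) : ℤ) = Nat.fib (2 * j + 2) + Nat.fib (2 * j + 3) := by
      rw [Nat.fib_add_two (n := 2 * j + 2)]; push_cast; ring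
    have h5 : (Nat.fib (2 * j + 5) : ℤ) = Nat.fib (2 * j + 3) + Nat.fib (2 * j + 4) := by
      rw [Nat.fib_add_two (n := 2 * j + 3)]; push_cast; ring
    have h6 := h3 j
    rw [show 2 * (j + 1) + 1 = 2 * j + 3 by ring, show 2 * (j + 1) + 2 = 2 * j + 4 by ring,
      show 2 * (j + 1) = 2 * j + 2 by ring, show 2 * j + 2 + 3 = 2 * j + 5 by ring]
    have a1 : (Nat.fib (2 * j + 3) : ℤ) ^ 2 - Nat.fib (2 * j + 2) * Nat.fib (2 * j + 4) = 1 := by
      rw [h4]; rw [h6] at h2 ⊢; linear_combination h2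
    refine ⟨a1, ?_⟩
    rw [h5, h4] at *
    linear_combination a1

/-- Walks through `n` at an odd index `2j+3` with next value `m`. -/
theorem reachOdd (n j : ℕ) (m : ℤ) :
    (∃ a b : ℕ, 0 < a ∧ 0 < b ∧ walk a b (2 * j + 3) = n ∧ (walk a b (2 * j + 4) : ℤ) = m) ↔
    A j n m ∧ B (j + 1) n m := by
  have hc := (cassini j).2
  have hφ : (0 : ℝ) < φ := Real.goldenRatio_pos
  have h5 : (0 : ℝ) < √5 := by positivity
  have k1 := E1 (j + 1) n m
  have k2 := E2 j n m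
  rw [show 2 * (j + 1) + 1 = 2 * j + 3 by ring, show 2 * (j + 1) = 2 * j + 2 by ring] at k1
  have iB : B (j + 1) n m ↔ 0 < (Nat.fib (2 * j + 3) : ℤ) * n - Nat.fib (2 * j + 2) * m := by
    unfold B
    have : (0 < (Nat.fib (2 * j + 3) : ℤ) * n - Nat.fib (2 * j + 2) * m) ↔
        (0 : ℝ) < (Nat.fib (2 * j + 3) : ℝ) * n - Nat.fib (2 * j + 2) * m := by
      rw [← Int.cast_pos (R := ℝ)]; push_cast; rfl
    rw [this, ← mul_pos_iff_of_pos_left (show (0 : ℝ) < √5 * φ ^ (2 * j + 2) by positivity), k1]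
    constructor <;> intro h <;> linarith
  have iA : A j n m ↔ 0 < (Nat.fib (2 * j + 1) : ℤ) * m - Nat.fib (2 * j + 2) * n := by
    unfold A
    have : (0 < (Nat.fib (2 * j + 1) : ℤ) * m - Nat.fib (2 * j + 2) * n) ↔
        (0 : ℝ) < (Nat.fib (2 * j + 1) : ℝ) * m - Nat.fib (2 * j + 2) * n := by
      rw [← Int.cast_pos (R := ℝ)]; push_cast; rfl
    rw [this, ← mul_pos_iff_of_pos_left (show (0 : ℝ) < √5 * φ ^ (2 * j + 1) by positivity), k2]
    constructor <;> intro h <;> linarith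
  rw [iA, iB]
  constructor
  · rintro ⟨a, b, ha, hb, h1, h2⟩
    rw [show 2 * j + 3 = (2 * j + 1) + 2 from rfl, (walk_eq a b (2 * j + 1)).1] at h1
    rw [show 2 * j + 4 = (2 * j + 1) + 3 from rfl, (walk_eq a b (2 * j + 1)).2] at h2
    rw [← h2, ← h1]
    push_cast
    rw [show 2 * j + 1 + 2 = 2 * j + 3 from rfl, show 2 * j + 1 + 1 = 2 * j + 2 from rfl]
    have ha' : (0 : ℤ) < a := by exact_mod_cast ha
    have hb' : (0 : ℤ) < b := by exact_mod_cast hb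
    constructor
    · have : (Nat.fib (2 * j + 1) : ℤ) * (Nat.fib (2 * j + 2) * a + Nat.fib (2 * j + 3) * b)
          - Nat.fib (2 * j + 2) * (Nat.fib (2 * j + 1) * a + Nat.fib (2 * j + 2) * b) = b := by
        linear_combination (b : ℤ) * hc
      rw [this]; exact hb'
    · have : (Nat.fib (2 * j + 3) : ℤ) * (Nat.fib (2 * j + 1) * a + Nat.fib (2 * j + 2) * b)
          - Nat.fib (2 * j + 2) * (Nat.fib (2 * j + 2) * a + Nat.fib (2 * j + 3) * b) = a := by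
        linear_combination (a : ℤ) * hc
      rw [this]; exact ha'
  · rintro ⟨h1, h2⟩
    set a : ℤ := (Nat.fib (2 * j + 3) : ℤ) * n - Nat.fib (2 * j + 2) * m with ha
    set b : ℤ := (Nat.fib (2 * j + 1) : ℤ) * m - Nat.fib (2 * j + 2) * n with hb
    have ea : ((a.toNat : ℕ) : ℤ) = a := Int.toNat_of_nonneg h2.le
    have eb : ((b.toNat : ℕ) : ℤ) = b := Int.toNat_of_nonneg h1.le
    refine ⟨a.toNat, b.toNat, by omega, by omega, ?_, ?_⟩
    · rw [show 2 * j + 3 = (2 * j + 1) + 2 from rfl, (walk_eq _ _ (2 * j + 1)).1]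
      have : ((Nat.fib (2 * j + 1) * a.toNat + Nat.fib (2 * j + 1 + 1) * b.toNat : ℕ) : ℤ) = n := by
        push_cast
        rw [ea, eb, ha, hb, show 2 * j + 1 + 1 = 2 * j + 2 from rfl]
        linear_combination (n : ℤ) * hc
      exact_mod_cast this
    · rw [show 2 * j + 4 = (2 * j + 1) + 3 from rfl, (walk_eq _ _ (2 * j + 1)).2]
      push_cast
      rw [ea, eb, ha, hb, show 2 * j + 1 + 1 = 2 * j + 2 from rfl,
        show 2 * j + 1 + 2 = 2 * j + 3 from rfl]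
      linear_combination (m : ℤ) * hc

/-- Walks through `n` at an even index `2j+2` with next value `m`. -/
theorem reachEven (n j : ℕ) (m : ℤ) :
    (∃ a b : ℕ, 0 < a ∧ 0 < b ∧ walk a b (2 * j + 2) = n ∧ (walk a b (2 * j + 3) : ℤ) = m) ↔
    A j n m ∧ B j n m := by
  have hc := (cassini j).1
  have hφ : (0 : ℝ) < φ := Real.goldenRatio_pos
  have h5 : (0 : ℝ) < √5 := by positivity
  have k1 := E1 j n m
  have k2 := E2 j n m
  have iB : B j n m ↔ 0 < (Nat.fib (2 * j + 1) : ℤ) * n - Nat.fib (2 * j) * m := by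
    unfold B
    have : (0 < (Nat.fib (2 * j + 1) : ℤ) * n - Nat.fib (2 * j) * m) ↔
        (0 : ℝ) < (Nat.fib (2 * j + 1) : ℝ) * n - Nat.fib (2 * j) * m := by
      rw [← Int.cast_pos (R := ℝ)]; push_cast; rfl
    rw [this, ← mul_pos_iff_of_pos_left (show (0 : ℝ) < √5 * φ ^ (2 * j) by positivity), k1]
    constructor <;> intro h <;> linarith
  have iA : A j n m ↔ 0 < (Nat.fib (2 * j + 1) : ℤ) * m - Nat.fib (2 * j + 2) * n := by
    unfold A
    have : (0 < (Nat.fib (2 * j + 1) : ℤ) * m - Nat.fib (2 * j + 2) * n) ↔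
        (0 : ℝ) < (Nat.fib (2 * j + 1) : ℝ) * m - Nat.fib (2 * j + 2) * n := by
      rw [← Int.cast_pos (R := ℝ)]; push_cast; rfl
    rw [this, ← mul_pos_iff_of_pos_left (show (0 : ℝ) < √5 * φ ^ (2 * j + 1) by positivity), k2]
    constructor <;> intro h <;> linarith
  rw [iA, iB]
  constructor
  · rintro ⟨a, b, ha, hb, h1, h2⟩
    rw [(walk_eq a b (2 * j)).1] at h1
    rw [(walk_eq a b (2 * j)).2] at h2
    rw [← h2, ← h1]
    push_cast
    have ha' : (0 : ℤ) < a := by exact_mod_cast ha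
    have hb' : (0 : ℤ) < b := by exact_mod_cast hb
    constructor
    · have : (Nat.fib (2 * j + 1) : ℤ) * (Nat.fib (2 * j + 1) * a + Nat.fib (2 * j + 2) * b)
          - Nat.fib (2 * j + 2) * (Nat.fib (2 * j) * a + Nat.fib (2 * j + 1) * b) = a := by
        linear_combination (a : ℤ) * hc
      rw [this]; exact ha'
    · have : (Nat.fib (2 * j + 1) : ℤ) * (Nat.fib (2 * j) * a + Nat.fib (2 * j + 1) * b)
          - Nat.fib (2 * j) * (Nat.fib (2 * j + 1) * a + Nat.fib (2 * j + 2) * b) = b := by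
        linear_combination (b : ℤ) * hc
      rw [this]; exact hb'
  · rintro ⟨h1, h2⟩
    set b : ℤ := (Nat.fib (2 * j + 1) : ℤ) * n - Nat.fib (2 * j) * m with hb
    set a : ℤ := (Nat.fib (2 * j + 1) : ℤ) * m - Nat.fib (2 * j + 2) * n with ha
    have ea : ((a.toNat : ℕ) : ℤ) = a := Int.toNat_of_nonneg h1.le
    have eb : ((b.toNat : ℕ) : ℤ) = b := Int.toNat_of_nonneg h2.le
    refine ⟨a.toNat, b.toNat, by omega, by omega, ?_, ?_⟩
    · rw [(walk_eq _ _ (2 * j)).1]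
      have : ((Nat.fib (2 * j) * a.toNat + Nat.fib (2 * j + 1) * b.toNat : ℕ) : ℤ) = n := by
        push_cast
        rw [ea, eb, ha, hb]
        linear_combination (n : ℤ) * hc
      exact_mod_cast this
    · rw [(walk_eq _ _ (2 * j)).2]
      push_cast
      rw [ea, eb, ha, hb]
      linear_combination (m : ℤ) * hc

end Pool.Agent.H125e.SF
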