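import Pool.Agent.H125e.SF1

/-! The criterion: `n` is a down-integer iff `Crit n`, an up-integer iff not. -/

namespace Pool.Agent.H125e.SF

open Real
open scoped goldenRatio

def Crit (n : ℕ) : Prop := ∃ j : ℕ, A j n (⌊φ * n⌋ : ℤ) ∧ ¬ B (j + 1) n ((⌊φ * n⌋ + 1 : ℤ) : ℝ)

theorem pow_ge_one (k : ℕ) : (1 : ℝ) ≤ φ ^ k := one_le_pow₀ Real.one_lt_goldenRatio.le

theorem sqrt_n (n : ℕ) (hn : 2 ≤ n) : (0 : ℝ) < √5 * n := by
  have : (0 : ℝ) < n := by exact_mod_cast (by omega : 0 < n)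
  positivity

theorem B_low (n : ℕ) (hn : 2 ≤ n) (k : ℕ) (m : ℝ) (h : m ≤ φ * n) : B k n m := by
  unfold B
  have h1 := pow_ge_one (4 * k)
  have h2 := sqrt_n n hn
  nlinarith [mul_nonneg (by linarith : (0 : ℝ) ≤ φ ^ (4 * k) - 1) (by linarith : 0 ≤ φ * n - m)]

theorem A_high (n : ℕ) (hn : 2 ≤ n) (k : ℕ) (m : ℝ) (h : φ * n ≤ m) : A k n m := by
  unfold A
  have h1 := pow_ge_one (4 * k + 2)
  have h2 := sqrt_n n hn
  nlinarith [mul_nonneg (by linarith : (0 : ℝ) ≤ φ ^ (4 * k + 2) + 1) (by linarith : 0 ≤ m - φ * n)]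

theorem A_anti (n : ℝ) (j i : ℕ) (hji : j ≤ i) (m : ℝ) (h : m ≤ φ * n) (hA : A i n m) :
    A j n m := by
  unfold A at *
  have h1 : φ ^ (4 * j + 2) ≤ φ ^ (4 * i + 2) :=
    pow_le_pow_right₀ Real.one_lt_goldenRatio.le (by omega)
  have : (φ ^ (4 * j + 2) + 1) * (φ * n - m) ≤ (φ ^ (4 * i + 2) + 1) * (φ * n - m) :=
    mul_le_mul_of_nonneg_right (by linarith) (by linarith)
  linarith

theorem B_anti (n : ℝ) (j i : ℕ) (hji : j ≤ i) (m : ℝ) (h : φ * n ≤ m) (hB : B i n m) :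
    B j n m := by
  unfold B at *
  have h1 : φ ^ (4 * j) ≤ φ ^ (4 * i) :=
    pow_le_pow_right₀ Real.one_lt_goldenRatio.le (by omega)
  have : (φ ^ (4 * j) - 1) * (m - φ * n) ≤ (φ ^ (4 * i) - 1) * (m - φ * n) :=
    mul_le_mul_of_nonneg_right (by linarith) (by linarith)
  linarith

theorem B_mono (n : ℝ) (i : ℕ) (m m' : ℝ) (h : m' ≤ m) (hB : B i n m) : B i n m' := by
  unfold B at *
  have h1 := pow_ge_one (4 * i)
  have : (φ ^ (4 * i) - 1) * (m' - φ * n) ≤ (φ ^ (4 * i) - 1) * (m - φ * n) :=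
    mul_le_mul_of_nonneg_left (by linarith) (by linarith)
  linarith

theorem A_mono (n : ℝ) (i : ℕ) (m m' : ℝ) (h : m ≤ m') (hA : A i n m) : A i n m' := by
  unfold A at *
  have h1 := pow_ge_one (4 * i + 2)
  have : (φ ^ (4 * i + 2) + 1) * (φ * n - m') ≤ (φ ^ (4 * i + 2) + 1) * (φ * n - m) :=
    mul_le_mul_of_nonneg_left (by linarith) (by linarith)
  linarith

theorem greatest_exists (n : ℕ) (hn : 2 ≤ n) : ∃ s, IsGreatest (indices n) s ∧ 3 ≤ s := by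
  have hne : 3 ∈ indices n := ⟨by omega, 1, n - 1, by omega, by omega, by simp [walk]; omega⟩
  have hb : BddAbove (indices n) := by
    refine ⟨n + 5, ?_⟩
    rintro s ⟨hs, a, b, ha, hb, h⟩
    by_cases h5 : s < 5
    · omega
    · obtain ⟨k, rfl⟩ : ∃ k, s = k + 2 := ⟨s - 2, by omega⟩
      rw [(walk_eq a b k).1] at h
      have h1 := Nat.le_fib_self (n := k + 2) (by omega)
      rw [Nat.fib_add_two] at h1
      nlinarith [Nat.mul_le_mul_left (Nat.fib k) ha, Nat.mul_le_mul_left (Nat.fib (k + 1)) hb]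
  exact ⟨sSup (indices n), ⟨Nat.sSup_mem ⟨3, hne⟩ hb, fun x hx => le_csSup hb hx⟩,
    le_csSup hb hne⟩

theorem irr (n : ℕ) (hn : 2 ≤ n) (m : ℤ) : (m : ℝ) ≠ φ * n := by
  have h : Irrational (φ * (n : ℝ)) := Real.goldenRatio_irrational.mul_natCast (by omega)
  intro h2
  exact h.ne_int m h2.symm

theorem ceil_eq (n : ℕ) (hn : 2 ≤ n) : ⌈φ * (n : ℝ)⌉ = ⌊φ * (n : ℝ)⌋ + 1 := by
  rw [Int.ceil_eq_iff]
  push_cast
  have h1 := Int.floor_le (φ * (n : ℝ))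
  have h2 := Int.lt_floor_add_one (φ * (n : ℝ))
  have h3 := irr n hn ⌊φ * (n : ℝ)⌋
  constructor
  · have := lt_of_le_of_ne h1 h3
    linarith
  · exact h2.le

section main

variable (n : ℕ) (hn : 2 ≤ n)

include hn

theorem mem_of_odd (j : ℕ) (m : ℤ) (hA : A j n m) (hB : B (j + 1) n m) : 2 * j + 3 ∈ indices n := by
  obtain ⟨a, b, ha, hb, h1, -⟩ := (reachOdd n j m).2 ⟨hA, hB⟩
  exact ⟨by omega, a, b, ha, hb, h1⟩

theorem mem_of_even (j : ℕ) (m : ℤ) (hA : A j n m) (hB : B j n m) : 2 * j + 2 ∈ indices n := by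
  obtain ⟨a, b, ha, hb, h1, -⟩ := (reachEven n j m).2 ⟨hA, hB⟩
  exact ⟨by omega, a, b, ha, hb, h1⟩

/-- the situation at the greatest index when it is odd -/
theorem odd_case (i : ℕ) (hs : IsGreatest (indices n) (2 * i + 3)) :
    A i n (⌊φ * n⌋ : ℤ) ∧ B (i + 1) n (⌊φ * n⌋ : ℤ) ∧ ¬ B (i + 1) n ((⌊φ * n⌋ + 1 : ℤ) : ℝ) := by
  obtain ⟨⟨-, a, b, ha, hb, h1⟩, hmax⟩ := hs
  obtain ⟨hA, hB⟩ := (reachOdd n i (walk a b (2 * i + 4) : ℤ)).1 ⟨a, b, ha, hb, h1, rfl⟩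
  have hfl : ((⌊φ * n⌋ : ℤ) : ℝ) ≤ φ * n := Int.floor_le _
  have hfu : φ * n ≤ ((⌊φ * n⌋ + 1 : ℤ) : ℝ) := by
    push_cast; exact (Int.lt_floor_add_one _).le
  have key : ∀ m : ℤ, φ * n ≤ (m : ℝ) → ¬ B (i + 1) n m := by
    intro m hm hB'
    have := hmax (mem_of_even n hn (i + 1) m (A_high n hn _ _ hm) hB')
    omega
  have hm : ((walk a b (2 * i + 4) : ℤ) : ℝ) ≤ φ * n := by
    by_contra h
    exact key _ (le_of_lt (not_le.1 h)) hB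
  have hm2 : (walk a b (2 * i + 4) : ℤ) ≤ ⌊φ * n⌋ := Int.le_floor.2 hm
  exact ⟨A_mono n i _ _ (by exact_mod_cast hm2) hA, B_low n hn _ _ hfl, key _ hfu⟩

theorem even_case (i : ℕ) (hs : IsGreatest (indices n) (2 * i + 2)) :
    A i n ((⌊φ * n⌋ + 1 : ℤ) : ℝ) ∧ B i n ((⌊φ * n⌋ + 1 : ℤ) : ℝ) ∧ ¬ A i n (⌊φ * n⌋ : ℤ) := by
  obtain ⟨⟨-, a, b, ha, hb, h1⟩, hmax⟩ := hs
  obtain ⟨hA, hB⟩ := (reachEven n i (walk a b (2 * i + 3) : ℤ)).1 ⟨a, b, ha, hb, h1, rfl⟩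
  have hfl : ((⌊φ * n⌋ : ℤ) : ℝ) ≤ φ * n := Int.floor_le _
  have hfu : φ * n ≤ ((⌊φ * n⌋ + 1 : ℤ) : ℝ) := by
    push_cast; exact (Int.lt_floor_add_one _).le
  have key : ∀ m : ℤ, (m : ℝ) ≤ φ * n → ¬ A i n m := by
    intro m hm hA'
    have := hmax (mem_of_odd n hn i m hA' (B_low n hn _ _ hm))
    omega
  have hm : φ * n < ((walk a b (2 * i + 3) : ℤ) : ℝ) := by
    by_contra h
    exact key _ (not_lt.1 h) hA
  have hm2 : ⌊φ * n⌋ + 1 ≤ (walk a b (2 * i + 3) : ℤ) := by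
    have : ⌊φ * n⌋ < (walk a b (2 * i + 3) : ℤ) := Int.floor_lt.2 hm
    omega
  exact ⟨A_high n hn _ _ hfu, B_mono n i _ _ (by exact_mod_cast hm2) hB, key _ hfl⟩

theorem parity (s : ℕ) (h3 : 3 ≤ s) : (∃ i, s = 2 * i + 3) ∨ ∃ i, s = 2 * i + 2 ∧ 1 ≤ i := by
  rcases Nat.even_or_odd s with h | h
  · obtain ⟨k, hk⟩ := h
    right; exact ⟨k - 1, by omega, by omega⟩
  · obtain ⟨k, hk⟩ := h
    left; exact ⟨k - 1, by omega⟩

theorem crit_odd (i : ℕ) (hs : IsGreatest (indices n) (2 * i + 3)) : Crit n := by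
  obtain ⟨h1, -, h2⟩ := odd_case n hn i hs
  exact ⟨i, h1, h2⟩

theorem not_crit_even (i : ℕ) (hs : IsGreatest (indices n) (2 * i + 2)) : ¬ Crit n := by
  rintro ⟨j, hA, hB⟩
  obtain ⟨h1, h2, h3⟩ := even_case n hn i hs
  have hfl : ((⌊φ * n⌋ : ℤ) : ℝ) ≤ φ * n := Int.floor_le _
  have hfu : φ * n ≤ ((⌊φ * n⌋ + 1 : ℤ) : ℝ) := by
    push_cast; exact (Int.lt_floor_add_one _).le
  have hij : j < i := by
    by_contra h
    exact h3 (A_anti n i j (not_lt.1 h) _ hfl hA)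
  exact hB (B_anti n (j + 1) i hij _ hfu h2)

theorem down_iff : IsDown n ↔ Crit n := by
  constructor
  · rintro ⟨-, s, hs, a, b, ha, hb, h1, h2⟩
    obtain ⟨s', hs', h3⟩ := greatest_exists n hn
    have e := hs.unique hs'
    subst e
    rcases parity n hn s h3 with ⟨i, rfl⟩ | ⟨i, rfl, -⟩
    · exact crit_odd n hn i hs
    · exfalso
      obtain ⟨_, _, hnA⟩ := even_case n hn i hs
      have := ((reachEven n i ⌊φ * n⌋).1 ⟨a, b, ha, hb, h1, h2⟩).1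
      exact hnA this
  · intro hC
    obtain ⟨s, hs, h3⟩ := greatest_exists n hn
    refine ⟨hn, s, hs, ?_⟩
    rcases parity n hn s h3 with ⟨i, rfl⟩ | ⟨i, rfl, -⟩
    · obtain ⟨h1, h2, -⟩ := odd_case n hn i hs
      exact (reachOdd n i ⌊φ * n⌋).2 ⟨h1, h2⟩
    · exact absurd hC (not_crit_even n hn i hs)

theorem up_iff : IsUp n ↔ ¬ Crit n := by
  constructor
  · rintro ⟨-, s, hs, a, b, ha, hb, h1, h2⟩
    rw [ceil_eq n hn] at h2
    obtain ⟨s', hs', h3⟩ := greatest_exists n hn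
    have e := hs.unique hs'
    subst e
    rcases parity n hn s h3 with ⟨i, rfl⟩ | ⟨i, rfl, -⟩
    · exfalso
      obtain ⟨_, _, hnB⟩ := odd_case n hn i hs
      have := ((reachOdd n i (⌊φ * n⌋ + 1)).1 ⟨a, b, ha, hb, h1, h2⟩).2
      exact hnB this
    · exact not_crit_even n hn i hs
  · intro hC
    obtain ⟨s, hs, h3⟩ := greatest_exists n hn
    refine ⟨hn, s, hs, ?_⟩
    rw [ceil_eq n hn]
    rcases parity n hn s h3 with ⟨i, rfl⟩ | ⟨i, rfl, -⟩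
    · exact absurd (crit_odd n hn i hs) hC
    · obtain ⟨h1, h2, -⟩ := even_case n hn i hs
      exact (reachEven n i (⌊φ * n⌋ + 1)).2 ⟨h1, h2⟩

end main

end Pool.Agent.H125e.SF
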