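import Pool.Agent.H125e.SF2

/-! The window lemma and the pattern lemma. -/

namespace Pool.Agent.H125e.SF

open Real
open scoped goldenRatio

theorem phi_lo : (1.61803 : ℝ) < φ := by
  have h : (2.23606 : ℝ) < √5 := by
    rw [Real.lt_sqrt (by norm_num)]; norm_num
  unfold Real.goldenRatio; linarith

theorem phi_hi : φ < (1.61804 : ℝ) := by
  have h : √5 < (2.23607 : ℝ) := by
    rw [Real.sqrt_lt' (by norm_num)]; norm_num
  unfold Real.goldenRatio; linarith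

theorem s5_lo : (2.23606 : ℝ) < √5 := by
  rw [Real.lt_sqrt (by norm_num)]; norm_num

theorem s5_hi : √5 < (2.23607 : ℝ) := by
  rw [Real.sqrt_lt' (by norm_num)]; norm_num

theorem coreQ (r α X Q : ℝ) (ha1 : 0.27639 < α) (hr1 : 2.61803 < r)
    (hr2 : r < 2.61804) (hu : X < (1 - α) * r * Q) (hX0 : 2906 ≤ X) (hQp : 0 < Q) : 1530 < Q := by
  have h1 : (1 - α) * r < 1.8945 := by nlinarith
  have h2 : X < 1.8945 * Q := by nlinarith
  linarith

theorem core (r α X Q : ℝ) (hα1 : α * (1 + r) = 1) (ha1 : 0.27639 < α) (ha2 : α < 0.2764)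
    (hr1 : 2.61803 < r) (hr2 : r < 2.61804) (hl : α * Q ≤ X) (hu : X < (1 - α) * r * Q)
    (hQ0 : 1530 < Q) :
    ∃ τ : ℝ, 0.276 ≤ τ ∧ τ ≤ 0.7237 ∧
      (∀ d : ℝ, d < τ - 0.02 → (Q + 1) * d < X ∧ X + 29.07 ≤ (r * Q - 1) * (1 - d)) ∧
      (∀ d : ℝ, (Q + 1) * d < X + 29.07 → X ≤ (r * Q - 1) * (1 - d) → d < τ + 0.02) := by
  have har : α * r = 1 - α := by linarith
  have hQp : 0 < Q := by linarith
  have hrQ : (4000 : ℝ) < r * Q - 1 := by nlinarith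
  have hrQ0 : 0 < r * Q := by linarith
  obtain ⟨t1, ht1⟩ : ∃ t1 : ℝ, t1 = X / (Q + 1) := ⟨_, rfl⟩
  obtain ⟨t2, ht2⟩ : ∃ t2 : ℝ, t2 = X / (r * Q - 1) := ⟨_, rfl⟩
  have e1 : (Q + 1) * t1 = X := by rw [ht1]; exact mul_div_cancel₀ _ (by linarith)
  have e2 : (r * Q - 1) * t2 = X := by rw [ht2]; exact mul_div_cancel₀ _ (by linarith)
  have b1 : (0.276 : ℝ) ≤ t1 := by rw [ht1, le_div_iff₀ (by linarith)]; nlinarith
  have b2 : t2 ≤ 0.724 := by
    rw [ht2, div_le_iff₀ (by linarith)]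
    have : (1 - α) * r * Q ≤ 0.72361 * (r * Q) := by nlinarith
    nlinarith
  have b3 : min t1 (1 - t2) ≤ 0.7237 := by
    rcases le_total X ((1 - α) * Q) with h | h
    · apply le_trans (min_le_left _ _)
      rw [ht1, div_le_iff₀ (by linarith)]; nlinarith
    · apply le_trans (min_le_right _ _)
      have : (0.2763 : ℝ) ≤ t2 := by
        rw [ht2, le_div_iff₀ (by linarith)]
        have h2 : α * r * Q ≤ X := by rw [har]; exact h
        nlinarith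
      linarith
  refine ⟨min t1 (1 - t2), le_min b1 (by linarith), b3, ?_, ?_⟩
  · intro d h
    have h1 : d < t1 - 0.02 := lt_of_lt_of_le h (by linarith [min_le_left t1 (1 - t2)])
    have h2 : d < (1 - t2) - 0.02 := lt_of_lt_of_le h (by linarith [min_le_right t1 (1 - t2)])
    constructor
    · have : (Q + 1) * d < (Q + 1) * t1 := mul_lt_mul_of_pos_left (by linarith) (by linarith)
      linarith
    · have : (r * Q - 1) * (t2 + 0.02) ≤ (r * Q - 1) * (1 - d) :=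
        mul_le_mul_of_nonneg_left (by linarith) (by linarith)
      linarith
  · intro d hA hB
    have h1 : d < t1 + 0.02 := by
      by_contra h5
      push Not at h5
      have : (Q + 1) * (t1 + 0.02) ≤ (Q + 1) * d := mul_le_mul_of_nonneg_left h5 (by linarith)
      linarith
    have h2 : d ≤ 1 - t2 := by
      by_contra h5
      push Not at h5
      have : (r * Q - 1) * (1 - d) < (r * Q - 1) * t2 :=
        mul_lt_mul_of_pos_left (by linarith) (by linarith)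
      linarith
    rcases min_choice t1 (1 - t2) with h | h
    · rw [h]; exact h1
    · rw [h]; linarith

theorem core_high (r α X Q d : ℝ) (hα1 : α * (1 + r) = 1) (ha2 : α < 0.2764)
    (hr1 : 2.61803 < r) (hu : X < (1 - α) * r * Q)
    (hQ0 : 1530 < Q) (h2 : r * Q * r * d ≤ X + 29.07) : d < 0.296 := by
  have har : α * r = 1 - α := by linarith
  have h4 : (1 - α) * r * Q = α * (r * Q * r) := by rw [← har]; ring
  have h8 : (10000 : ℝ) < r * Q * r := by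
    have : (4000 : ℝ) < r * Q := by nlinarith
    nlinarith
  by_contra h5
  push Not at h5
  have h7 : (r * Q * r) * 0.296 ≤ (r * Q * r) * d :=
    mul_le_mul_of_nonneg_left h5 (by linarith)
  have h9 : α * (r * Q * r) ≤ 0.2764 * (r * Q * r) :=
    mul_le_mul_of_nonneg_right ha2.le (by linarith)
  linarith

theorem core_low (r α X Y d : ℝ) (hα1 : α * (1 + r) = 1) (ha2 : α < 0.2764)
    (hY : 0 < Y) (hl : α * r * Y ≤ X) (h2 : X ≤ Y * (1 - d)) : d < 0.296 := by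
  have har : α * r = 1 - α := by linarith
  have h4 : α * r ≤ 1 - d := by
    by_contra h5
    push Not at h5
    nlinarith
  linarith

theorem setup (n : ℕ) (hn : 1300 ≤ n) : ∃ (r α Y Q : ℝ) (j : ℕ), φ ^ 2 = r ∧ Q = r * Y ∧
    φ ^ (4 * j) = Y ∧ φ ^ (4 * j + 2) = Q ∧ φ ^ (4 * (j + 1)) = r * Q ∧ α * (1 + r) = 1 ∧
    0.27639 < α ∧ α < 0.2764 ∧ 2.61803 < r ∧ r < 2.61804 ∧ 0 < Y ∧ α * Q ≤ √5 * n ∧
    √5 * n < (1 - α) * r * Q ∧ 1530 < Q := by
  have hf1 := phi_lo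
  have hf3 := phi_hi
  have h51 := s5_lo
  have hf2 : φ ^ 2 = φ + 1 := Real.goldenRatio_sq
  obtain ⟨f, hf⟩ : ∃ f : ℝ, f = φ := ⟨_, rfl⟩
  rw [← hf] at hf1 hf3 hf2 ⊢
  obtain ⟨r, hr⟩ : ∃ r : ℝ, r = f + 1 := ⟨_, rfl⟩
  obtain ⟨α, hα⟩ : ∃ α : ℝ, α = 1 / (f + 2) := ⟨_, rfl⟩
  have hα1 : α * (1 + r) = 1 := by
    rw [hα, hr]; have : f + 2 ≠ 0 := by linarith
    field_simp; ring
  have ha1 : (0.27639 : ℝ) < α := by
    rw [hα, lt_div_iff₀ (by linarith)]; linarith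
  have ha2 : α < (0.2764 : ℝ) := by
    rw [hα, div_lt_iff₀ (by linarith)]; linarith
  have har : α * r = 1 - α := by linarith
  have hr1 : (2.61803 : ℝ) < r := by rw [hr]; linarith
  have hr2 : r < (2.61804 : ℝ) := by rw [hr]; linarith
  have hn' : (1300 : ℝ) ≤ n := by exact_mod_cast hn
  obtain ⟨X, hX⟩ : ∃ X : ℝ, X = √5 * n := ⟨_, rfl⟩
  rw [← hX]
  have hX0 : (2906 : ℝ) ≤ X := by rw [hX]; nlinarith
  have hαr : 0 < α * r := by nlinarith
  obtain ⟨j, hj1, hj2⟩ := exists_nat_pow_near (x := X / (α * r)) (y := r ^ 2)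
    (by rw [le_div_iff₀ hαr]; linarith) (by nlinarith)
  rw [le_div_iff₀ hαr] at hj1
  rw [div_lt_iff₀ hαr] at hj2
  have hφr : f ^ 2 = r := by rw [hf2, hr]
  have hp4 : ∀ k : ℕ, f ^ (4 * k) = (r ^ 2) ^ k := by
    intro k
    rw [show 4 * k = 2 * (2 * k) by ring, pow_mul, hφr, pow_mul]
  have hY0 : 0 < (r ^ 2) ^ j := by positivity
  have hQ1 : f ^ (4 * j + 2) = r * (r ^ 2) ^ j := by rw [pow_add, hp4, hφr]; ring
  have hQ2 : f ^ (4 * (j + 1)) = r * (r * (r ^ 2) ^ j) := by rw [hp4, pow_succ]; ring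
  have hl : α * (r * (r ^ 2) ^ j) ≤ X := by linarith
  have hu : X < (1 - α) * r * (r * (r ^ 2) ^ j) := by
    rw [pow_succ] at hj2
    rw [← har]
    calc X < (r ^ 2) ^ j * r ^ 2 * (α * r) := hj2
      _ = α * r * r * (r * (r ^ 2) ^ j) := by ring
  have hQp : 0 < r * (r ^ 2) ^ j := by positivity
  exact ⟨r, α, (r ^ 2) ^ j, r * (r ^ 2) ^ j, j, hφr, rfl, hp4 j, hQ1, hQ2, hα1, ha1, ha2, hr1,
    hr2, hY0, hl, hu, coreQ r α X _ ha1 hr1 hr2 hu hX0 hQp⟩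

theorem eqA (m k : ℕ) (d : ℝ) (hd : d = φ * (m : ℝ) - ⌊φ * (m : ℝ)⌋) :
    A k m (⌊φ * m⌋ : ℤ) ↔ (φ ^ (4 * k + 2) + 1) * d < √5 * m := by
  rw [hd]; exact Iff.rfl

theorem eqB (m k : ℕ) (d : ℝ) (hd : d = φ * (m : ℝ) - ⌊φ * (m : ℝ)⌋) :
    B k m ((⌊φ * m⌋ + 1 : ℤ) : ℝ) ↔ (φ ^ (4 * k) - 1) * (1 - d) < √5 * m := by
  unfold B; push_cast
  rw [show ((⌊φ * (m : ℝ)⌋ : ℝ) + 1 - φ * m) = 1 - d by rw [hd]; ring]

theorem window (n : ℕ) (hn : 1300 ≤ n) : ∃ τ : ℝ, 0.276 ≤ τ ∧ τ ≤ 0.7237 ∧ ∀ i : ℕ, i ≤ 13 →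
    (φ * ((n + i : ℕ) : ℝ) - ⌊φ * ((n + i : ℕ) : ℝ)⌋ < τ - 0.02 → Crit (n + i)) ∧
    (Crit (n + i) → φ * ((n + i : ℕ) : ℝ) - ⌊φ * ((n + i : ℕ) : ℝ)⌋ < τ + 0.02) := by
  obtain ⟨r, α, Y, Q, j, hφr, hQY, hY, hQ1, hQ2, hα1, ha1, ha2, hr1, hr2, hY0, hl, hu, hQ0⟩ :=
    setup n hn
  obtain ⟨τ, τ1, τ2, c1, c2⟩ := core r α _ Q hα1 ha1 ha2 hr1 hr2 hl hu hQ0
  refine ⟨τ, τ1, τ2, ?_⟩
  intro i hi
  have h52 := s5_hi
  have h51 := s5_lo
  have hi' : (i : ℝ) ≤ 13 := by exact_mod_cast hi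
  have hi0 : (0 : ℝ) ≤ i := Nat.cast_nonneg i
  obtain ⟨m, hm⟩ : ∃ m : ℕ, m = n + i := ⟨_, rfl⟩
  rw [← hm]
  have hXi : √5 * (m : ℝ) = √5 * n + √5 * i := by rw [hm]; push_cast; ring
  have hX1 : √5 * (n : ℝ) ≤ √5 * (m : ℝ) := by rw [hXi]; nlinarith
  have hX2 : √5 * (m : ℝ) ≤ √5 * (n : ℝ) + 29.07 := by rw [hXi]; nlinarith
  obtain ⟨d, hd⟩ : ∃ d : ℝ, d = φ * (m : ℝ) - ⌊φ * (m : ℝ)⌋ := ⟨_, rfl⟩
  have hd0 : 0 ≤ d := by rw [hd]; linarith [Int.floor_le (φ * (m : ℝ))]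
  have hd1 : d < 1 := by rw [hd]; linarith [Int.lt_floor_add_one (φ * (m : ℝ))]
  rw [← hd]
  constructor
  · intro h
    obtain ⟨a1, a2⟩ := c1 d h
    refine ⟨j, ?_, ?_⟩
    · rw [eqA m j d hd, hQ1]; linarith
    · rw [eqB m (j + 1) d hd, hQ2, not_lt]; linarith
  · rintro ⟨k, hA, hB⟩
    rw [eqA m k d hd] at hA
    rw [eqB m (k + 1) d hd, not_lt] at hB
    rcases lt_trichotomy k j with hk | rfl | hk
    · have h1 : φ ^ (4 * (k + 1)) ≤ φ ^ (4 * j) :=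
        pow_le_pow_right₀ Real.one_lt_goldenRatio.le (by omega)
      rw [hY] at h1
      have h2 : √5 * n ≤ Y * (1 - d) := by
        have : (φ ^ (4 * (k + 1)) - 1) * (1 - d) ≤ Y * (1 - d) :=
          mul_le_mul_of_nonneg_right (by linarith) (by linarith)
        linarith
      have h3 : α * r * Y ≤ √5 * n := by
        have : α * r * Y = α * Q := by rw [hQY]; ring
        linarith
      have := core_low r α _ Y d hα1 ha2 hY0 h3 h2
      linarith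
    · rw [hQ1] at hA
      rw [hQ2] at hB
      exact c2 d (by linarith) (by linarith)
    · have h1 : φ ^ (4 * (j + 1) + 2) ≤ φ ^ (4 * k + 2) :=
        pow_le_pow_right₀ Real.one_lt_goldenRatio.le (by omega)
      rw [pow_add, hQ2, hφr] at h1
      have h2 : r * Q * r * d ≤ √5 * n + 29.07 := by
        have : (r * Q * r) * d ≤ (φ ^ (4 * k + 2) + 1) * d :=
          mul_le_mul_of_nonneg_right (by linarith) hd0
        linarith
      have := core_high r α _ Q d hα1 ha2 hr1 hu hQ0 h2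
      linarith

theorem pattern (x τ : ℝ) (P : ℕ → Prop) (hx : 0 < x) (hτ1 : 0.276 ≤ τ) (hτ2 : τ ≤ 0.7241)
    (h1 : ∀ i : ℕ, i ≤ 13 → ∀ c : ℤ, 0 < x + i * φ - c → x + i * φ - c < τ - 0.02 → P i)
    (h2 : ∀ i : ℕ, i ≤ 13 → P i → ∃ c : ℤ, 0 < x + i * φ - c ∧ x + i * φ - c ≤ τ + 0.02)
    (h0 : x ≤ τ + 0.02) :
    (∃ i j k, 0 < i ∧ i < j ∧ j < k ∧ k ≤ 13 ∧ P i ∧ P j ∧ P k) ∧
    (P 9 → ∃ i j k, 0 < i ∧ i < j ∧ j < k ∧ k ≤ 8 ∧ P i ∧ P j ∧ P k) ∧
    (P 12 → ∃ i j k, 0 < i ∧ i < j ∧ j < k ∧ k ≤ 11 ∧ P i ∧ P j ∧ P k) := by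
  have hφ1 := phi_lo
  have hφ2 := phi_hi
  have down : 0.382 < x → P 1 ∧ P 3 ∧ P 6 := by
    intro h
    refine ⟨h1 1 (by norm_num) 2 ?_ ?_, h1 3 (by norm_num) 5 ?_ ?_, h1 6 (by norm_num) 10 ?_ ?_⟩ <;>
      push_cast <;> linarith
  have up : x + 0.3762 ≤ τ → P 2 ∧ P 5 ∧ P 7 := by
    intro h
    refine ⟨h1 2 (by norm_num) 3 ?_ ?_, h1 5 (by norm_num) 8 ?_ ?_, h1 7 (by norm_num) 11 ?_ ?_⟩ <;>
      push_cast <;> linarith
  refine ⟨?_, ?_, ?_⟩
  · rcases le_or_gt x 0.0558 with a1 | a1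
    · refine ⟨5, 10, 13, by norm_num, by norm_num, by norm_num, by norm_num,
        h1 5 (by norm_num) 8 ?_ ?_, h1 10 (by norm_num) 16 ?_ ?_, h1 13 (by norm_num) 21 ?_ ?_⟩ <;>
        push_cast <;> linarith
    rcases le_or_gt x 0.146 with a2 | a2
    · refine ⟨5, 8, 13, by norm_num, by norm_num, by norm_num, by norm_num,
        h1 5 (by norm_num) 8 ?_ ?_, h1 8 (by norm_num) 13 ?_ ?_, h1 13 (by norm_num) 21 ?_ ?_⟩ <;>
        push_cast <;> linarith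
    rcases le_or_gt x 0.2163 with a3 | a3
    · refine ⟨3, 8, 13, by norm_num, by norm_num, by norm_num, by norm_num,
        h1 3 (by norm_num) 5 ?_ ?_, h1 8 (by norm_num) 13 ?_ ?_, h1 13 (by norm_num) 21 ?_ ?_⟩ <;>
        push_cast <;> linarith
    rcases le_or_gt x 0.382 with a4 | a4
    · refine ⟨3, 8, 11, by norm_num, by norm_num, by norm_num, by norm_num,
        h1 3 (by norm_num) 5 ?_ ?_, h1 8 (by norm_num) 13 ?_ ?_, h1 11 (by norm_num) 18 ?_ ?_⟩ <;>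
        push_cast <;> linarith
    · obtain ⟨p1, p2, p3⟩ := down a4
      exact ⟨1, 3, 6, by norm_num, by norm_num, by norm_num, by norm_num, p1, p2, p3⟩
  · intro h9
    obtain ⟨c, hc1, hc2⟩ := h2 9 (by norm_num) h9
    push_cast at hc1 hc2
    have c1 : c ≤ 15 := by
      have : (c : ℝ) < 16 := by linarith
      have : c < 16 := by exact_mod_cast this
      omega
    have c2 : 14 ≤ c := by
      have : (13 : ℝ) < c := by linarith
      have : 13 < c := by exact_mod_cast this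
      omega
    have : c = 14 ∨ c = 15 := by omega
    rcases this with rfl | rfl
    · push_cast at hc1 hc2
      obtain ⟨p1, p2, p3⟩ := up (by linarith)
      exact ⟨2, 5, 7, by norm_num, by norm_num, by norm_num, by norm_num, p1, p2, p3⟩
    · push_cast at hc1 hc2
      obtain ⟨p1, p2, p3⟩ := down (by linarith)
      exact ⟨1, 3, 6, by norm_num, by norm_num, by norm_num, by norm_num, p1, p2, p3⟩
  · intro h9
    obtain ⟨c, hc1, hc2⟩ := h2 12 (by norm_num) h9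
    push_cast at hc1 hc2
    have c1 : c ≤ 20 := by
      have : (c : ℝ) < 21 := by linarith
      have : c < 21 := by exact_mod_cast this
      omega
    have c2 : 19 ≤ c := by
      have : (18 : ℝ) < c := by linarith
      have : 18 < c := by exact_mod_cast this
      omega
    have : c = 19 ∨ c = 20 := by omega
    rcases this with rfl | rfl
    · push_cast at hc1 hc2
      obtain ⟨p1, p2, p3⟩ := up (by linarith)
      exact ⟨2, 5, 7, by norm_num, by norm_num, by norm_num, by norm_num, p1, p2, p3⟩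
    · push_cast at hc1 hc2
      obtain ⟨p1, p2, p3⟩ := down (by linarith)
      exact ⟨1, 3, 6, by norm_num, by norm_num, by norm_num, by norm_num, p1, p2, p3⟩

end Pool.Agent.H125e.SF
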