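import Pool.Agent.H125e.SF3

/-! The finite check and the third-order gaps. -/

namespace Pool.Agent.H125e.SF

open Real
open scoped goldenRatio

/-- the gaps of order `ℓ` of a set `A = {a₁ < a₂ < …}` of natural numbers: the differences
`a_{k+ℓ} - a_k`, i.e. the `g > 0` such that for some `d ∈ A` also `d + g ∈ A` and exactly `ℓ - 1`
elements of `A` lie strictly between `d` and `d + g` -/
def gaps (A : Set ℕ) (ℓ : ℕ) : Set ℕ :=
  {g | 0 < g ∧ ∃ d ∈ A, d + g ∈ A ∧ {x | x ∈ A ∧ d < x ∧ x < d + g}.ncard + 1 = ℓ}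

def T : ℕ := 15164856255899015353990058047472137793257001451223534190165105938368236626216653594315971502890168905706857707854545841186634778685987883523900647638957465539434868179478954768058764509009980381225935767819262516221629141804027159572067336753948065462123309684339827132068028288046910257509860213009099014038192089814602759644084181149165656911999398066144802128641628329479954007586993147123488568996

def tri : List (ℕ × ℕ × ℕ) := [(1, 1, 2), (2, 3, 5), (5, 8, 13), (13, 21, 34), (34, 55, 89),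
  (89, 144, 233), (233, 377, 610), (610, 987, 1597), (1597, 2584, 4181)]

theorem tri_eq : tri = (List.range 9).map
    (fun j => (Nat.fib (2 * j + 1), Nat.fib (2 * j + 2), Nat.fib (2 * j + 3))) := by decide +kernel

def crB (n m : ℕ) : Bool :=
  tri.any fun t => decide (t.2.1 * n < t.1 * m) && decide (t.2.2 * n ≤ t.2.1 * (m + 1))

def fl (n : ℕ) : ℕ := n * 1618033989 / 1000000000

theorem table : ∀ n < 1330, 2 ≤ n → (fl n * fl n < fl n * n + n * n ∧
    (fl n + 1) * n + n * n < (fl n + 1) * (fl n + 1) ∧ ¬ 6765 * n < 4181 * fl n ∧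
    crB n (fl n) = T.testBit n) := by decide +kernel

theorem small : ∀ d < 1314, 2 ≤ d →
    3 ≤ ((Finset.range 13).filter (fun i => T.testBit (d + (i + 1)) = T.testBit d)).card ∧
    (T.testBit (d + 9) = T.testBit d →
      3 ≤ ((Finset.range 8).filter (fun i => T.testBit (d + (i + 1)) = T.testBit d)).card) ∧
    (T.testBit (d + 12) = T.testBit d →
      3 ≤ ((Finset.range 11).filter (fun i => T.testBit (d + (i + 1)) = T.testBit d)).card) := by
  decide +kernel

theorem crB_iff (n m : ℕ) : crB n m = true ↔ ∃ j < 9, Nat.fib (2 * j + 2) * n < Nat.fib (2 * j + 1) * m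
    ∧ Nat.fib (2 * j + 3) * n ≤ Nat.fib (2 * j + 2) * (m + 1) := by
  unfold crB
  rw [tri_eq]
  simp [List.any_eq_true]

theorem iA (n j m : ℕ) : A j n m ↔ Nat.fib (2 * j + 2) * n < Nat.fib (2 * j + 1) * m := by
  have k2 := E2 j n m
  have hφ : (0 : ℝ) < φ := Real.goldenRatio_pos
  unfold A
  rw [← Nat.cast_lt (α := ℝ)]
  push_cast
  have hp : (0 : ℝ) < √5 * φ ^ (2 * j + 1) := by positivity
  constructor
  · intro h
    have h1 : 0 < √5 * φ ^ (2 * j + 1) * (Nat.fib (2 * j + 1) * m - Nat.fib (2 * j + 2) * n) := by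
      rw [k2]; linarith
    have := (mul_pos_iff_of_pos_left hp).1 h1
    linarith
  · intro h
    have h1 := mul_pos hp (show (0 : ℝ) < Nat.fib (2 * j + 1) * m - Nat.fib (2 * j + 2) * n by
      linarith)
    rw [k2] at h1
    linarith

theorem iB (n j m : ℕ) : B j n m ↔ Nat.fib (2 * j) * m < Nat.fib (2 * j + 1) * n := by
  have k2 := E1 j n m
  have hφ : (0 : ℝ) < φ := Real.goldenRatio_pos
  unfold B
  rw [← Nat.cast_lt (α := ℝ)]
  push_cast
  have hp : (0 : ℝ) < √5 * φ ^ (2 * j) := by positivity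
  constructor
  · intro h
    have h1 : 0 < √5 * φ ^ (2 * j) * (Nat.fib (2 * j + 1) * n - Nat.fib (2 * j) * m) := by
      rw [k2]; linarith
    have := (mul_pos_iff_of_pos_left hp).1 h1
    linarith
  · intro h
    have h1 := mul_pos hp (show (0 : ℝ) < Nat.fib (2 * j + 1) * n - Nat.fib (2 * j) * m by
      linarith)
    rw [k2] at h1
    linarith

theorem fl_eq (n m : ℕ) (h1 : m * m < m * n + n * n) (h2 : (m + 1) * n + n * n < (m + 1) * (m + 1)) :
    ⌊φ * (n : ℝ)⌋ = (m : ℤ) := by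
  have ha := Real.goldenRatio_add_goldenConj
  have hm := Real.goldenRatio_mul_goldenConj
  have hψ := Real.goldenConj_neg
  have hn0 : (0 : ℝ) ≤ n := Nat.cast_nonneg n
  have hm0 : (0 : ℝ) ≤ m := Nat.cast_nonneg m
  have h1' : (m : ℝ) * m < m * n + n * n := by exact_mod_cast h1
  have h2' : ((m : ℝ) + 1) * n + n * n < (m + 1) * (m + 1) := by exact_mod_cast h2
  have id : ∀ y : ℝ, (y - φ * n) * (y - ψ * n) = y * y - y * n - n * n := by
    intro y
    linear_combination (-y * n) * ha + n * n * hm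
  have hψn : ψ * (n : ℝ) ≤ 0 := mul_nonpos_of_nonpos_of_nonneg hψ.le hn0
  rw [Int.floor_eq_iff]
  push_cast
  constructor
  · by_contra h
    push Not at h
    have := mul_nonneg (show (0 : ℝ) ≤ m - φ * n by linarith) (show (0 : ℝ) ≤ m - ψ * n by linarith)
    rw [id] at this
    linarith
  · by_contra h
    push Not at h
    have := mul_nonneg (show (0 : ℝ) ≤ φ * n - (m + 1) by linarith)
      (show (0 : ℝ) ≤ (m + 1) - ψ * n by linarith)
    have h3 := id ((m : ℝ) + 1)
    linarith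

theorem crit_small (n : ℕ) (hn : 2 ≤ n) (hn2 : n < 1330) : Crit n ↔ T.testBit n = true := by
  obtain ⟨t1, t2, t3, t4⟩ := table n hn2 hn
  have hfl := fl_eq n (fl n) t1 t2
  rw [← t4, crB_iff]
  unfold Crit
  rw [hfl]
  have e1 : (((fl n : ℕ) : ℤ) : ℝ) = ((fl n : ℕ) : ℝ) := by norm_num
  have e2 : ((((fl n : ℕ) : ℤ) + 1 : ℤ) : ℝ) = ((fl n + 1 : ℕ) : ℝ) := by push_cast; ring
  rw [e1]
  simp only [e2]
  constructor
  · rintro ⟨j, hA, hB⟩
    refine ⟨j, ?_, (iA n j (fl n)).1 hA, ?_⟩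
    · by_contra h9
      apply t3
      have hle : ((fl n : ℕ) : ℝ) ≤ φ * n := by
        have := Int.floor_le (φ * (n : ℝ))
        rw [hfl] at this
        exact_mod_cast this
      have := (iA n 9 (fl n)).1 (A_anti n 9 j (not_lt.1 h9) _ hle hA)
      have f20 : Nat.fib (2 * 9 + 2) = 6765 := by decide +kernel
      have f19 : Nat.fib (2 * 9 + 1) = 4181 := by decide +kernel
      rwa [f20, f19] at this
    · rw [iB, not_lt] at hB
      exact hB
  · rintro ⟨j, -, h1, h2⟩
    refine ⟨j, (iA n j (fl n)).2 h1, ?_⟩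
    rw [iB, not_lt]
    exact h2

def D : Set ℕ := {n | IsDown n}
def U : Set ℕ := {n | IsUp n}

theorem D_small (n : ℕ) (hn : 2 ≤ n) (hn2 : n < 1330) : n ∈ D ↔ T.testBit n = true := by
  rw [← crit_small n hn hn2]; exact down_iff n hn

theorem U_small (n : ℕ) (hn : 2 ≤ n) (hn2 : n < 1330) : n ∈ U ↔ T.testBit n = false := by
  rw [← Bool.not_eq_true, ← crit_small n hn hn2]; exact up_iff n hn

theorem fin_betw (A : Set ℕ) (d g : ℕ) : {x | x ∈ A ∧ d < x ∧ x < d + g}.Finite :=
  (Set.finite_Ioo d (d + g)).subset (fun _ hx => ⟨hx.2.1, hx.2.2⟩)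

theorem real (b : Bool) (A : Set ℕ) (hA : ∀ n, 2 ≤ n → n < 1330 → (n ∈ A ↔ T.testBit n = b))
    (d g : ℕ) (hd : 2 ≤ d) (hg : 0 < g) (hdg : d + g < 1330) (h1 : T.testBit d = b)
    (h2 : T.testBit (d + g) = b)
    (h3 : ((Finset.Ioo d (d + g)).filter (fun x => T.testBit x = b)).card = 2) :
    g ∈ gaps A 3 := by
  refine ⟨hg, d, (hA d hd (by omega)).2 h1, (hA _ (by omega) hdg).2 h2, ?_⟩
  have : {x | x ∈ A ∧ d < x ∧ x < d + g} =
      (((Finset.Ioo d (d + g)).filter (fun x => T.testBit x = b) : Finset ℕ) : Set ℕ) := by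
    ext x
    simp only [Set.mem_ofPred_eq, Finset.coe_filter, Finset.mem_Ioo]
    constructor
    · rintro ⟨a1, a2, a3⟩
      exact ⟨⟨a2, a3⟩, (hA x (by omega) (by omega)).1 a1⟩
    · rintro ⟨⟨a2, a3⟩, a1⟩
      exact ⟨(hA x (by omega) (by omega)).2 a1, a2, a3⟩
  rw [this, Set.ncard_coe_finset, h3]

theorem ge_three (A : Set ℕ) (d g : ℕ) (h : {x | x ∈ A ∧ d < x ∧ x < d + g}.ncard + 1 = 3) :
    3 ≤ g := by
  have h1 : {x | x ∈ A ∧ d < x ∧ x < d + g}.ncard ≤ (Set.Ioo d (d + g)).ncard :=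
    Set.ncard_le_ncard (fun _ hx => ⟨hx.2.1, hx.2.2⟩) (Set.finite_Ioo d (d + g))
  rw [← Finset.coe_Ioo, Set.ncard_coe_finset, Nat.card_Ioo] at h1
  omega

theorem no_three (A : Set ℕ) (d g : ℕ) (h : {x | x ∈ A ∧ d < x ∧ x < d + g}.ncard + 1 = 3)
    (a b c : ℕ) (hab : a ≠ b) (hac : a ≠ c) (hbc : b ≠ c)
    (ha : a ∈ A ∧ d < a ∧ a < d + g) (hb : b ∈ A ∧ d < b ∧ b < d + g)
    (hc : c ∈ A ∧ d < c ∧ c < d + g) : False := by
  have h1 : ({a, b, c} : Set ℕ).ncard ≤ {x | x ∈ A ∧ d < x ∧ x < d + g}.ncard := by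
    apply Set.ncard_le_ncard _ (fin_betw A d g)
    intro x hx
    simp only [Set.mem_insert_iff, Set.mem_singleton_iff] at hx
    rcases hx with rfl | rfl | rfl
    · exact ha
    · exact hb
    · exact hc
  have h2 : ({a, b, c} : Set ℕ).ncard = 3 := Set.ncard_eq_three.2 ⟨a, b, c, hab, hac, hbc, rfl⟩
  omega

theorem no_card (A : Set ℕ) (b : Bool) (hA : ∀ n, 2 ≤ n → n < 1330 → (n ∈ A ↔ T.testBit n = b))
    (d g k : ℕ) (hd : 2 ≤ d) (hd2 : d < 1314) (hk : k < g) (hk2 : k ≤ 13) (hb : T.testBit d = b)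
    (h : {x | x ∈ A ∧ d < x ∧ x < d + g}.ncard + 1 = 3)
    (h3 : 3 ≤ ((Finset.range k).filter (fun i => T.testBit (d + (i + 1)) = T.testBit d)).card) :
    False := by
  obtain ⟨x, y, z, hx, hy, hz, h1, h2, h4⟩ := Finset.two_lt_card_iff.1 (show 2 < _ from h3)
  rw [Finset.mem_filter, Finset.mem_range] at hx hy hz
  refine no_three A d g h (d + (x + 1)) (d + (y + 1)) (d + (z + 1)) (by omega) (by omega)
    (by omega) ⟨(hA _ (by omega) (by omega)).2 (hx.2.trans hb), by omega, by omega⟩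
    ⟨(hA _ (by omega) (by omega)).2 (hy.2.trans hb), by omega, by omega⟩
    ⟨(hA _ (by omega) (by omega)).2 (hz.2.trans hb), by omega, by omega⟩

/-- gaps which start below 1314 -/
theorem small_case (A : Set ℕ) (b : Bool)
    (hA : ∀ n, 2 ≤ n → n < 1330 → (n ∈ A ↔ T.testBit n = b)) (d g : ℕ) (hd : 2 ≤ d)
    (hd2 : d < 1314) (hdA : d ∈ A) (hgA : d + g ∈ A)
    (h : {x | x ∈ A ∧ d < x ∧ x < d + g}.ncard + 1 = 3) : g ≤ 13 ∧ g ≠ 9 ∧ g ≠ 12 := by
  obtain ⟨s1, s2, s3⟩ := small d hd2 hd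
  have hb := (hA d hd (by omega)).1 hdA
  refine ⟨?_, ?_, ?_⟩
  · by_contra hg
    exact no_card A b hA d g 13 hd hd2 (by omega) le_rfl hb h s1
  · rintro rfl
    have := (hA _ (by omega) (by omega)).1 hgA
    exact no_card A b hA d 9 8 hd hd2 (by omega) (by omega) hb h (s2 (this.trans hb.symm))
  · rintro rfl
    have := (hA _ (by omega) (by omega)).1 hgA
    exact no_card A b hA d 12 11 hd hd2 (by omega) (by omega) hb h (s3 (this.trans hb.symm))

theorem large_D (d g : ℕ) (hd : 1300 ≤ d) (hdA : d ∈ D) (hgA : d + g ∈ D)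
    (h : {x | x ∈ D ∧ d < x ∧ x < d + g}.ncard + 1 = 3) : g ≤ 13 ∧ g ≠ 9 ∧ g ≠ 12 := by
  obtain ⟨τ, t1, t2, W⟩ := window d hd
  have hmem : ∀ i : ℕ, d + i ∈ D ↔ Crit (d + i) := fun i => down_iff (d + i) (by omega)
  have hcrit : Crit d := (down_iff d (by omega)).1 hdA
  have hx0 : 0 < φ * d - ⌊φ * (d : ℝ)⌋ := by
    have h1 := Int.floor_le (φ * (d : ℝ))
    have h2 := irr d (by omega) ⌊φ * (d : ℝ)⌋
    have := lt_of_le_of_ne h1 h2
    linarith
  obtain ⟨p1, p2, p3⟩ := pattern (φ * d - ⌊φ * (d : ℝ)⌋) τ (fun i => Crit (d + i)) hx0 t1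
    (by linarith)
    (by
      intro i hi c hc1 hc2
      apply (W i hi).1
      have : ⌊φ * ((d + i : ℕ) : ℝ)⌋ = ⌊φ * (d : ℝ)⌋ + c := by
        rw [Int.floor_eq_iff]; push_cast
        constructor <;> linarith
      rw [this]; push_cast; linarith)
    (by
      intro i hi hC
      refine ⟨⌊φ * ((d + i : ℕ) : ℝ)⌋ - ⌊φ * (d : ℝ)⌋, ?_, ?_⟩
      · have h1 := Int.floor_le (φ * ((d + i : ℕ) : ℝ))
        have h2 := irr (d + i) (by omega) ⌊φ * ((d + i : ℕ) : ℝ)⌋
        have h3 := lt_of_le_of_ne h1 h2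
        push_cast at h3 ⊢; linarith
      · have h3 := (W i hi).2 hC
        push_cast at h3 ⊢; linarith)
    (by
      have := (W 0 (by omega)).2 (by simpa using hcrit)
      simp only [add_zero] at this
      exact this.le)
  have fin : ∀ K, K < g → (∃ i j k, 0 < i ∧ i < j ∧ j < k ∧ k ≤ K ∧ Crit (d + i) ∧ Crit (d + j) ∧
      Crit (d + k)) → False := by
    rintro K hK ⟨i, j, k, a1, a2, a3, a4, b1, b2, b3⟩
    exact no_three D d g h (d + i) (d + j) (d + k) (by omega) (by omega) (by omega)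
      ⟨(hmem i).2 b1, by omega, by omega⟩ ⟨(hmem j).2 b2, by omega, by omega⟩
      ⟨(hmem k).2 b3, by omega, by omega⟩
  refine ⟨?_, ?_, ?_⟩
  · by_contra hg
    exact fin 13 (by omega) p1
  · rintro rfl
    exact fin 8 (by omega) (p2 ((hmem 9).1 hgA))
  · rintro rfl
    exact fin 11 (by omega) (p3 ((hmem 12).1 hgA))

theorem large_U (d g : ℕ) (hd : 1314 ≤ d) (hdA : d ∈ U) (hgA : d + g ∈ U)
    (h : {x | x ∈ U ∧ d < x ∧ x < d + g}.ncard + 1 = 3) : g ≤ 13 ∧ g ≠ 9 ∧ g ≠ 12 := by
  obtain ⟨N, hN⟩ : ∃ N : ℕ, N = d + g := ⟨_, rfl⟩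
  obtain ⟨τ, t1, t2, W'⟩ := window (N - 13) (by omega)
  have W : ∀ i : ℕ, i ≤ 13 → (φ * ((N - i : ℕ) : ℝ) - ⌊φ * ((N - i : ℕ) : ℝ)⌋ < τ - 0.02 →
      Crit (N - i)) ∧ (Crit (N - i) → φ * ((N - i : ℕ) : ℝ) - ⌊φ * ((N - i : ℕ) : ℝ)⌋ < τ + 0.02) := by
    intro i hi
    have e : N - 13 + (13 - i) = N - i := by omega
    have := W' (13 - i) (by omega)
    rwa [e] at this
  have hc : ∀ i : ℕ, i ≤ 13 → ((N - i : ℕ) : ℝ) = N - i := fun i hi => by
    rw [Nat.cast_sub (by omega)]
  have hmem : ∀ i : ℕ, i ≤ 13 → (N - i ∈ U ↔ ¬ Crit (N - i)) := fun i hi =>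
    up_iff (N - i) (by omega)
  have hx0 : 0 < (⌊φ * (N : ℝ)⌋ : ℝ) + 1 - φ * N := by
    have h1 := Int.lt_floor_add_one (φ * (N : ℝ))
    linarith
  have H2 : ∀ i : ℕ, i ≤ 13 → ¬ Crit (N - i) → ∃ c : ℤ, 0 < (⌊φ * (N : ℝ)⌋ : ℝ) + 1 - φ * N + i * φ - c
      ∧ (⌊φ * (N : ℝ)⌋ : ℝ) + 1 - φ * N + i * φ - c ≤ (1 - τ) + 0.02 := by
    intro i hi hC
    refine ⟨⌊φ * (N : ℝ)⌋ - ⌊φ * ((N - i : ℕ) : ℝ)⌋, ?_, ?_⟩
    · have h1 := Int.lt_floor_add_one (φ * ((N - i : ℕ) : ℝ))
      rw [hc i hi] at h1 ⊢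
      push_cast; linarith
    · have h3 : ¬ (φ * ((N - i : ℕ) : ℝ) - ⌊φ * ((N - i : ℕ) : ℝ)⌋ < τ - 0.02) :=
        fun h4 => hC ((W i hi).1 h4)
      rw [hc i hi] at h3 ⊢
      push_cast; linarith
  obtain ⟨p1, p2, p3⟩ := pattern ((⌊φ * (N : ℝ)⌋ : ℝ) + 1 - φ * N) (1 - τ)
    (fun i => ¬ Crit (N - i)) hx0 (by linarith) (by linarith)
    (by
      intro i hi c hc1 hc2 hC
      have h3 := (W i hi).2 hC
      have : ⌊φ * ((N - i : ℕ) : ℝ)⌋ = ⌊φ * (N : ℝ)⌋ - c := by
        rw [Int.floor_eq_iff, hc i hi]; push_cast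
        constructor <;> linarith
      rw [this, hc i hi] at h3
      push_cast at h3; linarith)
    (fun i hi hC => H2 i hi hC)
    (by
      have hC : ¬ Crit (N - 0) := by
        have := (hmem 0 (by omega)).1 (by simpa [hN] using hgA)
        exact this
      have h3 : ¬ (φ * ((N - 0 : ℕ) : ℝ) - ⌊φ * ((N - 0 : ℕ) : ℝ)⌋ < τ - 0.02) :=
        fun h4 => hC ((W 0 (by omega)).1 h4)
      rw [Nat.sub_zero] at h3
      linarith)
  have fin : ∀ K, K ≤ 13 → K < g → (∃ i j k, 0 < i ∧ i < j ∧ j < k ∧ k ≤ K ∧ ¬ Crit (N - i) ∧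
      ¬ Crit (N - j) ∧ ¬ Crit (N - k)) → False := by
    rintro K hK13 hK ⟨i, j, k, a1, a2, a3, a4, b1, b2, b3⟩
    exact no_three U d g h (N - i) (N - j) (N - k) (by omega) (by omega) (by omega)
      ⟨(hmem i (by omega)).2 b1, by omega, by omega⟩ ⟨(hmem j (by omega)).2 b2, by omega, by omega⟩
      ⟨(hmem k (by omega)).2 b3, by omega, by omega⟩
  refine ⟨?_, ?_, ?_⟩
  · by_contra hg
    exact fin 13 le_rfl (by omega) p1
  · rintro rfl
    refine fin 8 (by omega) (by omega) (p2 ((hmem 9 (by omega)).1 ?_))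
    rw [show N - 9 = d by omega]; exact hdA
  · rintro rfl
    refine fin 11 (by omega) (by omega) (p3 ((hmem 12 (by omega)).1 ?_))
    rw [show N - 12 = d by omega]; exact hdA

theorem two_le_D (n : ℕ) (h : n ∈ D) : 2 ≤ n := h.1
theorem two_le_U (n : ℕ) (h : n ∈ U) : 2 ≤ n := h.1

theorem gaps_D : gaps D 3 = {3, 4, 5, 6, 7, 8, 10, 11, 13} := by
  ext g
  simp only [Set.mem_insert_iff, Set.mem_singleton_iff]
  constructor
  · rintro ⟨-, d, hd, hg, h⟩
    have h3 := ge_three D d g h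
    have : g ≤ 13 ∧ g ≠ 9 ∧ g ≠ 12 := by
      rcases lt_or_ge d 1314 with h1 | h1
      · exact small_case D true D_small d g (two_le_D d hd) h1 hd hg h
      · exact large_D d g (by omega) hd hg h
    omega
  · rintro (rfl | rfl | rfl | rfl | rfl | rfl | rfl | rfl | rfl)
    · exact real true D D_small 46 3 (by norm_num) (by norm_num) (by norm_num) (by decide +kernel) (by decide +kernel) (by decide +kernel)
    · exact real true D D_small 9 4 (by norm_num) (by norm_num) (by norm_num) (by decide +kernel) (by decide +kernel) (by decide +kernel)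
    · exact real true D D_small 5 5 (by norm_num) (by norm_num) (by norm_num) (by decide +kernel) (by decide +kernel) (by decide +kernel)
    · exact real true D D_small 12 6 (by norm_num) (by norm_num) (by norm_num) (by decide +kernel) (by decide +kernel) (by decide +kernel)
    · exact real true D D_small 2 7 (by norm_num) (by norm_num) (by norm_num) (by decide +kernel) (by decide +kernel) (by decide +kernel)
    · exact real true D D_small 23 8 (by norm_num) (by norm_num) (by norm_num) (by decide +kernel) (by decide +kernel) (by decide +kernel)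
    · exact real true D D_small 13 10 (by norm_num) (by norm_num) (by norm_num) (by decide +kernel) (by decide +kernel) (by decide +kernel)
    · exact real true D D_small 15 11 (by norm_num) (by norm_num) (by norm_num) (by decide +kernel) (by decide +kernel) (by decide +kernel)
    · exact real true D D_small 107 13 (by norm_num) (by norm_num) (by norm_num) (by decide +kernel) (by decide +kernel) (by decide +kernel)

theorem gaps_U : gaps U 3 = {3, 4, 5, 6, 7, 8, 10, 11, 13} := by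
  ext g
  simp only [Set.mem_insert_iff, Set.mem_singleton_iff]
  constructor
  · rintro ⟨-, d, hd, hg, h⟩
    have h3 := ge_three U d g h
    have : g ≤ 13 ∧ g ≠ 9 ∧ g ≠ 12 := by
      rcases lt_or_ge d 1314 with h1 | h1
      · exact small_case U false U_small d g (two_le_U d hd) h1 hd hg h
      · exact large_U d g h1 hd hg h
    omega
  · rintro (rfl | rfl | rfl | rfl | rfl | rfl | rfl | rfl | rfl)
    · exact real false U U_small 19 3 (by norm_num) (by norm_num) (by norm_num) (by decide +kernel) (by decide +kernel) (by decide +kernel)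
    · exact real false U U_small 16 4 (by norm_num) (by norm_num) (by norm_num) (by decide +kernel) (by decide +kernel) (by decide +kernel)
    · exact real false U U_small 3 5 (by norm_num) (by norm_num) (by norm_num) (by decide +kernel) (by decide +kernel) (by decide +kernel)
    · exact real false U U_small 11 6 (by norm_num) (by norm_num) (by norm_num) (by decide +kernel) (by decide +kernel) (by decide +kernel)
    · exact real false U U_small 4 7 (by norm_num) (by norm_num) (by norm_num) (by decide +kernel) (by decide +kernel) (by decide +kernel)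
    · exact real false U U_small 6 8 (by norm_num) (by norm_num) (by norm_num) (by decide +kernel) (by decide +kernel) (by decide +kernel)
    · exact real false U U_small 40 10 (by norm_num) (by norm_num) (by norm_num) (by decide +kernel) (by decide +kernel) (by decide +kernel)
    · exact real false U U_small 42 11 (by norm_num) (by norm_num) (by norm_num) (by decide +kernel) (by decide +kernel) (by decide +kernel)
    · exact real false U U_small 291 13 (by norm_num) (by norm_num) (by norm_num) (by decide +kernel) (by decide +kernel) (by decide +kernel)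

end Pool.Agent.H125e.SF
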