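import Mathlib

/-! Signed count of the solutions of `x² + 3y² = 4·13^m`. -/

namespace Pool.Agent.H125e.UB1

/-- the character mod 3 -/
def chi (x : ℕ) : ℤ := if x % 3 = 1 then 1 else if x % 3 = 2 then -1 else 0

/-- solutions of `x² + 3y² = N` in natural numbers, `x` odd and `4 ∣ x + y` -/
def S (N : ℕ) : Finset (ℕ × ℕ) := ((Finset.range (N + 1)) ×ˢ (Finset.range (N + 1))).filter
  (fun p => p.1 ^ 2 + 3 * p.2 ^ 2 = N ∧ p.1 % 2 = 1 ∧ (p.1 + p.2) % 4 = 0)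

def r (N : ℕ) : ℤ := ∑ p ∈ S N, chi p.1

theorem mem_S {N : ℕ} {p : ℕ × ℕ} :
    p ∈ S N ↔ p.1 ^ 2 + 3 * p.2 ^ 2 = N ∧ p.1 % 2 = 1 ∧ (p.1 + p.2) % 4 = 0 := by
  unfold S
  rw [Finset.mem_filter, Finset.mem_product, Finset.mem_range, Finset.mem_range]
  constructor
  · exact fun h => h.2
  · intro h
    refine ⟨⟨?_, ?_⟩, h⟩ <;> nlinarith [h.1]

theorem five (x y : ℕ) (h : 5 ∣ x ^ 2 + 3 * y ^ 2) : 5 ∣ x ∧ 5 ∣ y := by
  have key : ∀ a b : ZMod 5, a ^ 2 + 3 * b ^ 2 = 0 → a = 0 ∧ b = 0 := by decide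
  rw [← ZMod.natCast_eq_zero_iff] at h
  push_cast at h
  have := key x y h
  rwa [ZMod.natCast_eq_zero_iff, ZMod.natCast_eq_zero_iff] at this

theorem r25 (N : ℕ) : r (25 * N) = - r N := by
  unfold r
  rw [← Finset.sum_neg_distrib]
  symm
  apply Finset.sum_nbij (fun p => (5 * p.1, 5 * p.2))
  · intro p hp
    rw [mem_S] at *
    dsimp only
    refine ⟨by rw [← hp.1]; ring, by omega, by omega⟩
  · intro p _ q _ h
    simp only [Prod.mk.injEq] at h
    ext <;> omega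
  · intro q hq
    rw [Finset.mem_coe, mem_S] at hq
    obtain ⟨h1, h2⟩ := five q.1 q.2 ⟨5 * N, by rw [hq.1]; ring⟩
    obtain ⟨x, hx⟩ := h1
    obtain ⟨y, hy⟩ := h2
    refine ⟨(x, y), ?_, ?_⟩
    · rw [Finset.mem_coe, mem_S]
      dsimp only
      rw [hx, hy] at hq
      refine ⟨by nlinarith [hq.1], by omega, by omega⟩
    · ext <;> simp [hx, hy]
  · intro p _
    unfold chi
    dsimp only
    have : p.1 % 3 = 0 ∨ p.1 % 3 = 1 ∨ p.1 % 3 = 2 := by omega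
    rcases this with h | h | h
    · have h5 : 5 * p.1 % 3 = 0 := by omega
      simp [h, h5]
    · have h5 : 5 * p.1 % 3 = 2 := by omega
      simp [h, h5]
    · have h5 : 5 * p.1 % 3 = 1 := by omega
      simp [h, h5]

/-- the coordinates of `2 ω π^m`, `π = 1 + 2σ√-3` -/
def V (σ : ℤ) : ℕ → ℤ × ℤ
  | 0 => (-1, 1)
  | m + 1 => ((V σ m).1 - 6 * σ * (V σ m).2, 2 * σ * (V σ m).1 + (V σ m).2)

theorem V_norm (σ : ℤ) (hσ : σ = 1 ∨ σ = -1) (m : ℕ) :
    (V σ m).1 ^ 2 + 3 * (V σ m).2 ^ 2 = 4 * 13 ^ m := by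
  induction m with
  | zero => simp [V]
  | succ m ih =>
    rw [V]
    dsimp only
    rw [pow_succ]
    rcases hσ with rfl | rfl <;> linear_combination 13 * ih

theorem V_mod (σ : ℤ) (hσ : σ = 1 ∨ σ = -1) (m : ℕ) :
    (V σ m).1 % 2 = 1 ∧ ((V σ m).1 + (V σ m).2) % 4 = 0 ∧ (V σ m).1 % 3 = 2 := by
  induction m with
  | zero => simp [V]
  | succ m ih =>
    rw [V]
    dsimp only
    rcases hσ with rfl | rfl <;> omega

theorem V_dvd (σ : ℤ) (hσ : σ = 1 ∨ σ = -1) (m : ℕ) :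
    (13 : ℤ) ∣ (V σ (m + 1)).1 + 6 * σ * (V σ (m + 1)).2 := by
  rw [V]
  dsimp only
  rcases hσ with rfl | rfl
  · exact ⟨(V 1 m).1, by ring⟩
  · exact ⟨(V (-1) m).1, by ring⟩

theorem V_ndvd (σ : ℤ) (hσ : σ = 1 ∨ σ = -1) (m : ℕ) : ¬ (13 : ℤ) ∣ (V σ m).1 := by
  induction m with
  | zero => simp [V]
  | succ m ih =>
    rcases Nat.eq_zero_or_pos m with rfl | hm
    · rcases hσ with rfl | rfl <;> simp [V]
    · obtain ⟨k, rfl⟩ : ∃ k, m = k + 1 := ⟨m - 1, by omega⟩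
      have h1 := V_dvd σ hσ k
      intro h2
      apply ih
      rw [V] at h2
      dsimp only at h2
      rcases hσ with rfl | rfl <;> omega

theorem prime13 : Prime (13 : ℤ) := Int.prime_iff_natAbs_prime.2 (by norm_num)

theorem descent (σ : ℤ) (hσ : σ = 1 ∨ σ = -1) (m : ℕ) : ∀ x y : ℤ,
    x ^ 2 + 3 * y ^ 2 = 4 * 13 ^ m → x % 2 = 1 → (x + y) % 4 = 0 →
    (m = 0 ∨ (¬ (13 : ℤ) ∣ x ∧ (13 : ℤ) ∣ x + 6 * σ * y)) →
    (x = (V σ m).1 ∧ y = (V σ m).2) ∨ (x = -(V σ m).1 ∧ y = -(V σ m).2) := by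
  induction m with
  | zero =>
    intro x y h h2 h4 _
    simp only [V]
    have hx : -2 ≤ x ∧ x ≤ 2 := by constructor <;> nlinarith
    have hy : -1 ≤ y ∧ y ≤ 1 := by constructor <;> nlinarith
    obtain ⟨hx1, hx2⟩ := hx
    obtain ⟨hy1, hy2⟩ := hy
    interval_cases x <;> interval_cases y <;> simp_all
  | succ m ih =>
    intro x y h h2 h4 h5
    rcases h5 with h5 | ⟨h5, x', hx'⟩
    · omega
    have hσ2 : σ * σ = 1 := by rcases hσ with rfl | rfl <;> norm_num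
    set y' : ℤ := y - 2 * σ * x' with hy'
    have ex : x = x' - 6 * σ * y' := by
      rw [hy']; linear_combination hx' - 12 * x' * hσ2
    have ey : y = 2 * σ * x' + y' := by rw [hy']; ring
    have hn : x' ^ 2 + 3 * y' ^ 2 = 4 * 13 ^ m := by
      rw [ex, ey, pow_succ] at h
      have : 13 * (x' ^ 2 + 3 * y' ^ 2) = 13 * (4 * 13 ^ m) := by
        linear_combination h - (36 * y' ^ 2 + 12 * x' ^ 2) * hσ2
      linarith
    have hx2 : x' % 2 = 1 := by rcases hσ with rfl | rfl <;> omega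
    have hxy : (x' + y') % 4 = 0 := by rcases hσ with rfl | rfl <;> omega
    have hc : m = 0 ∨ (¬ (13 : ℤ) ∣ x' ∧ (13 : ℤ) ∣ x' + 6 * σ * y') := by
      rcases Nat.eq_zero_or_pos m with hm | hm
      · exact Or.inl hm
      · right
        obtain ⟨k, rfl⟩ : ∃ k, m = k + 1 := ⟨m - 1, by omega⟩
        have h13 : (13 : ℤ) ∣ x' ^ 2 + 3 * y' ^ 2 := by
          rw [hn, pow_succ]; exact ⟨4 * 13 ^ k, by ring⟩
        have hnx : ¬ (13 : ℤ) ∣ x' := by
          intro hd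
          apply h5
          have h6 : (13 : ℤ) ∣ 3 * y' ^ 2 := by
            have h7 : (13 : ℤ) ∣ x' ^ 2 := dvd_pow hd two_ne_zero
            exact (dvd_add_right h7).1 h13
          have h8 : (13 : ℤ) ∣ y' := by
            rcases prime13.dvd_or_dvd h6 with h9 | h9
            · omega
            · exact prime13.dvd_of_dvd_pow h9
          rw [ex]
          exact dvd_sub hd (Dvd.dvd.mul_left h8 _)
        refine ⟨hnx, ?_⟩
        have h9 : (13 : ℤ) ∣ (x' + 6 * σ * y') * (x' - 6 * σ * y') := by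
          have : (x' + 6 * σ * y') * (x' - 6 * σ * y') = (x' ^ 2 + 3 * y' ^ 2) - 13 * (3 * y' ^ 2) := by
            linear_combination (-36 * y' ^ 2) * hσ2
          rw [this]
          exact dvd_sub h13 ⟨_, rfl⟩
        rcases prime13.dvd_or_dvd h9 with h10 | h10
        · exact h10
        · rw [← ex] at h10; exact absurd h10 h5
    have := ih x' y' hn hx2 hxy hc
    rw [V]
    dsimp only
    rcases this with ⟨e1, e2⟩ | ⟨e1, e2⟩
    · left; rw [ex, ey, e1, e2]; exact ⟨rfl, rfl⟩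
    · right; rw [ex, ey, e1, e2]; constructor <;> ring

/-- the contribution of a pair `± v` -/
def g (v : ℤ × ℤ) : ℤ := if 0 < v.1 ∧ 0 < v.2 then -1 else if v.1 < 0 ∧ v.2 < 0 then 1 else 0

def T (σ : ℤ) (m : ℕ) : Finset (ℕ × ℕ) :=
  (S (4 * 13 ^ m)).filter (fun p => ¬ 13 ∣ p.1 ∧ (13 : ℤ) ∣ (p.1 : ℤ) + 6 * σ * p.2)

theorem mem_T (σ : ℤ) (hσ : σ = 1 ∨ σ = -1) (m : ℕ) (hm : 1 ≤ m) (p : ℕ × ℕ) :
    p ∈ T σ m ↔ ((p.1 : ℤ) = (V σ m).1 ∧ (p.2 : ℤ) = (V σ m).2) ∨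
      ((p.1 : ℤ) = -(V σ m).1 ∧ (p.2 : ℤ) = -(V σ m).2) := by
  unfold T
  rw [Finset.mem_filter, mem_S]
  constructor
  · rintro ⟨⟨h1, h2, h3⟩, h4, h5⟩
    apply descent σ hσ m
    · exact_mod_cast h1
    · omega
    · omega
    · right
      refine ⟨?_, h5⟩
      intro h6; apply h4; exact_mod_cast h6
  · obtain ⟨k, rfl⟩ : ∃ k, m = k + 1 := ⟨m - 1, by omega⟩
    have hn := V_norm σ hσ (k + 1)
    obtain ⟨m1, m2, -⟩ := V_mod σ hσ (k + 1)
    have hd := V_dvd σ hσ k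
    have hnd := V_ndvd σ hσ (k + 1)
    rintro (⟨h1, h2⟩ | ⟨h1, h2⟩)
    · rw [← h1, ← h2] at hn hd m2
      rw [← h1] at m1 hnd
      refine ⟨⟨by exact_mod_cast hn, by omega, by omega⟩, ?_, hd⟩
      intro h6; apply hnd; exact_mod_cast h6
    · have e1 : (V σ (k + 1)).1 = -(p.1 : ℤ) := by omega
      have e2 : (V σ (k + 1)).2 = -(p.2 : ℤ) := by omega
      rw [e1, e2] at hn hd m2
      rw [e1] at m1 hnd
      refine ⟨⟨?_, by omega, by omega⟩, ?_, ?_⟩
      · have : ((p.1 : ℤ)) ^ 2 + 3 * (p.2 : ℤ) ^ 2 = 4 * 13 ^ (k + 1) := by rw [← hn]; ring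
        exact_mod_cast this
      · intro h6; apply hnd; rw [dvd_neg]; exact_mod_cast h6
      · have : (p.1 : ℤ) + 6 * σ * p.2 = -(-(p.1 : ℤ) + 6 * σ * -(p.2 : ℤ)) := by ring
        rw [this, dvd_neg]; exact hd

theorem sum_T (σ : ℤ) (hσ : σ = 1 ∨ σ = -1) (m : ℕ) (hm : 1 ≤ m) :
    ∑ p ∈ T σ m, chi p.1 = g (V σ m) := by
  obtain ⟨m1, m2, m3⟩ := V_mod σ hσ m
  unfold g
  by_cases hp : 0 < (V σ m).1 ∧ 0 < (V σ m).2
  · rw [if_pos hp]
    have : T σ m = {((V σ m).1.toNat, (V σ m).2.toNat)} := by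
      ext p
      rw [mem_T σ hσ m hm, Finset.mem_singleton, Prod.ext_iff]
      constructor
      · rintro (⟨h1, h2⟩ | ⟨h1, h2⟩)
        · constructor <;> omega
        · omega
      · rintro ⟨h1, h2⟩
        left
        dsimp only at h1 h2
        constructor <;> omega
    rw [this, Finset.sum_singleton]
    unfold chi
    dsimp only
    have h2 : (V σ m).1.toNat % 3 = 2 := by omega
    rw [h2]; norm_num
  · rw [if_neg hp]
    by_cases hn : (V σ m).1 < 0 ∧ (V σ m).2 < 0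
    · rw [if_pos hn]
      have : T σ m = {((-(V σ m).1).toNat, (-(V σ m).2).toNat)} := by
        ext p
        rw [mem_T σ hσ m hm, Finset.mem_singleton, Prod.ext_iff]
        constructor
        · rintro (⟨h1, h2⟩ | ⟨h1, h2⟩)
          · omega
          · constructor <;> omega
        · rintro ⟨h1, h2⟩
          right
          dsimp only at h1 h2
          constructor <;> omega
      rw [this, Finset.sum_singleton]
      unfold chi
      dsimp only
      have h2 : (-(V σ m).1).toNat % 3 = 1 := by omega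
      rw [h2]; norm_num
    · rw [if_neg hn]
      have : T σ m = ∅ := by
        rw [Finset.eq_empty_iff_forall_notMem]
        intro p
        rw [mem_T σ hσ m hm]
        rintro (⟨h1, h2⟩ | ⟨h1, h2⟩)
        · apply hp
          constructor <;> omega
        · apply hn
          constructor <;> omega
      rw [this, Finset.sum_empty]

theorem prim_sum (m : ℕ) (hm : 1 ≤ m) :
    ∑ p ∈ (S (4 * 13 ^ m)).filter (fun p => ¬ 13 ∣ p.1), chi p.1 = g (V 1 m) + g (V (-1) m) := by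
  rw [← sum_T 1 (Or.inl rfl) m hm, ← sum_T (-1) (Or.inr rfl) m hm]
  rw [← Finset.sum_filter_add_sum_filter_not _ (fun p : ℕ × ℕ => (13 : ℤ) ∣ (p.1 : ℤ) + 6 * 1 * p.2)]
  congr 1
  · apply Finset.sum_congr _ (fun _ _ => rfl)
    unfold T
    rw [Finset.filter_filter]
  · apply Finset.sum_congr _ (fun _ _ => rfl)
    unfold T
    rw [Finset.filter_filter]
    apply Finset.filter_congr
    intro p hp
    rw [mem_S] at hp
    have h13 : (13 : ℤ) ∣ (p.1 : ℤ) ^ 2 + 3 * (p.2 : ℤ) ^ 2 := by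
      have : (p.1 : ℤ) ^ 2 + 3 * (p.2 : ℤ) ^ 2 = 4 * 13 ^ m := by exact_mod_cast hp.1
      rw [this]
      obtain ⟨k, rfl⟩ : ∃ k, m = k + 1 := ⟨m - 1, by omega⟩
      exact ⟨4 * 13 ^ k, by ring⟩
    constructor
    · rintro ⟨h1, h2⟩
      refine ⟨h1, ?_⟩
      have h9 : (13 : ℤ) ∣ ((p.1 : ℤ) + 6 * 1 * p.2) * ((p.1 : ℤ) + 6 * -1 * p.2) := by
        have : ((p.1 : ℤ) + 6 * 1 * p.2) * ((p.1 : ℤ) + 6 * -1 * p.2)
            = ((p.1 : ℤ) ^ 2 + 3 * (p.2 : ℤ) ^ 2) - 13 * (3 * (p.2 : ℤ) ^ 2) := by ring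
        rw [this]
        exact dvd_sub h13 ⟨_, rfl⟩
      rcases prime13.dvd_or_dvd h9 with h10 | h10
      · exact absurd h10 h2
      · exact h10
    · rintro ⟨h1, h2⟩
      refine ⟨h1, ?_⟩
      intro h3
      apply h1
      omega

theorem thirteen (x y : ℕ) (h : 13 ∣ x ^ 2 + 3 * y ^ 2) (hx : 13 ∣ x) : 13 ∣ y := by
  have h1 : 13 ∣ 3 * y ^ 2 := (Nat.dvd_add_right (dvd_pow hx two_ne_zero)).1 h
  have p : Nat.Prime 13 := by norm_num
  rcases (Nat.Prime.dvd_mul p).1 h1 with h2 | h2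
  · omega
  · exact p.dvd_of_dvd_pow h2

theorem imprim_sum (k : ℕ) :
    ∑ p ∈ (S (4 * 13 ^ (k + 2))).filter (fun p => 13 ∣ p.1), chi p.1 = r (4 * 13 ^ k) := by
  unfold r
  symm
  apply Finset.sum_nbij (fun p => (13 * p.1, 13 * p.2))
  · intro p hp
    rw [Finset.mem_filter, mem_S]
    rw [mem_S] at hp
    dsimp only
    refine ⟨⟨by rw [pow_add]; nlinarith [hp.1], by omega, by omega⟩, by omega⟩
  · intro p _ q _ h
    simp only [Prod.mk.injEq] at h
    ext <;> omega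
  · intro q hq
    rw [Finset.mem_coe, Finset.mem_filter, mem_S] at hq
    obtain ⟨⟨h1, h2, h3⟩, x, hx⟩ := hq
    obtain ⟨y, hy⟩ := thirteen q.1 q.2 ⟨4 * 13 ^ (k + 1), by rw [h1]; ring⟩ ⟨x, hx⟩
    refine ⟨(x, y), ?_, ?_⟩
    · rw [Finset.mem_coe, mem_S]
      dsimp only
      rw [hx, hy, pow_add] at h1
      refine ⟨by nlinarith [h1], by omega, by omega⟩
    · ext <;> simp [hx, hy]
  · intro p _
    unfold chi
    dsimp only
    have h5 : 13 * p.1 % 3 = p.1 % 3 := by omega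
    rw [h5]

theorem r_rec (k : ℕ) :
    r (4 * 13 ^ (k + 2)) = r (4 * 13 ^ k) + (g (V 1 (k + 2)) + g (V (-1) (k + 2))) := by
  rw [← imprim_sum k, ← prim_sum (k + 2) (by omega)]
  unfold r
  rw [Finset.sum_filter_add_sum_filter_not]

theorem r_even (K : ℕ) : r (4 * 13 ^ (2 * K)) = r 4 +
    ∑ j ∈ Finset.range K, (g (V 1 (2 * (j + 1))) + g (V (-1) (2 * (j + 1)))) := by
  induction K with
  | zero => simp
  | succ K ih =>
    rw [Finset.sum_range_succ, ← add_assoc, ← ih]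
    exact r_rec (2 * K)

end Pool.Agent.H125e.UB1
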