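import Mathlib

/-! Unboundedness of the Birkhoff sums of a step function along an irrational rotation. -/

namespace Pool.Agent.H125e.UB2

theorem dense_fwd (β : ℝ) (hβ : Irrational β) (a b : ℝ) (hab : a < b) :
    ∃ K : ℕ, ∃ n : ℤ, a < K * β - n ∧ K * β - n < b := by
  obtain ⟨N, hN⟩ := exists_nat_gt (1 / (b - a))
  have hba : 0 < b - a := by linarith
  have hNpos : (0 : ℝ) < N := lt_trans (by positivity) hN
  have hN0 : 0 < N := by exact_mod_cast hNpos
  obtain ⟨k, hk0, hkN, hk⟩ := Real.exists_nat_abs_mul_sub_round_le β hN0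
  set s : ℝ := k * β - round ((k : ℝ) * β) with hs
  have hs' : |s| < b - a := by
    have h1 : 1 / ((N : ℝ) + 1) < b - a := by
      rw [div_lt_iff₀ (by positivity)]
      have := (div_lt_iff₀ hba).1 hN
      nlinarith
    exact lt_of_le_of_lt hk h1
  have hs0 : s ≠ 0 := by
    intro h0
    have h1 : (k : ℝ) * β = round ((k : ℝ) * β) := by linarith
    have h2 : Irrational ((k : ℝ) * β) := by
      have := hβ.natCast_mul (m := k) (by omega)
      exact this
    exact h2.ne_int _ h1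
  rcases lt_or_gt_of_ne hs0 with hneg | hpos
  · obtain ⟨M, hM⟩ := exists_nat_gt b
    have hbM : b - M < 0 := by linarith
    set t : ℕ := ⌊(b - M) / s⌋₊ + 1 with ht
    have h1 : (b - M) / s < t := by
      rw [ht]; push_cast; exact Nat.lt_floor_add_one _
    have h2 : (t : ℝ) - 1 ≤ (b - M) / s := by
      rw [ht]; push_cast
      have := Nat.floor_le (a := (b - M) / s) (div_nonneg_of_nonpos hbM.le hneg.le)
      linarith
    have h3 : (t : ℝ) * s < b - M := by
      have := (div_lt_iff_of_neg hneg).1 h1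
      linarith
    have h4 : b - M ≤ ((t : ℝ) - 1) * s := by
      have := (le_div_iff_of_neg hneg).1 h2
      linarith
    have h5 : -(b - a) < s := by have := neg_abs_le s; linarith
    refine ⟨t * k, t * round ((k : ℝ) * β) - M, ?_, ?_⟩
    · push_cast
      have : (t : ℝ) * k * β - (t * (round ((k : ℝ) * β) : ℝ) - M) = t * s + M := by rw [hs]; ring
      rw [this]; nlinarith
    · push_cast
      have : (t : ℝ) * k * β - (t * (round ((k : ℝ) * β) : ℝ) - M) = t * s + M := by rw [hs]; ring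
      rw [this]; linarith
  · obtain ⟨M, hM⟩ := exists_nat_gt (-a)
    have hbM : 0 < a + M := by linarith
    set t : ℕ := ⌊(a + M) / s⌋₊ + 1 with ht
    have h1 : (a + M) / s < t := by
      rw [ht]; push_cast; exact Nat.lt_floor_add_one _
    have h2 : (t : ℝ) - 1 ≤ (a + M) / s := by
      rw [ht]; push_cast
      have := Nat.floor_le (a := (a + M) / s) (by positivity)
      linarith
    have h3 : a + M < (t : ℝ) * s := by
      have := (div_lt_iff₀ hpos).1 h1
      linarith
    have h4 : ((t : ℝ) - 1) * s ≤ a + M := by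
      have := (le_div_iff₀ hpos).1 h2
      linarith
    have h5 : s < b - a := by have := le_abs_self s; linarith
    refine ⟨t * k, t * round ((k : ℝ) * β) + M, ?_, ?_⟩
    · push_cast
      have : (t : ℝ) * k * β - (t * (round ((k : ℝ) * β) : ℝ) + M) = t * s - M := by rw [hs]; ring
      rw [this]; linarith
    · push_cast
      have : (t : ℝ) * k * β - (t * (round ((k : ℝ) * β) : ℝ) + M) = t * s - M := by rw [hs]; ring
      rw [this]; nlinarith

variable (G : ℝ → ℤ)

theorem per_int (per : ∀ t, G (t + 1) = G t) (t : ℝ) (n : ℤ) : G (t + n) = G t := by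
  induction n using Int.induction_on with
  | zero => simp
  | succ i ih =>
    push_cast at *
    rw [show t + ((i : ℝ) + 1) = (t + i) + 1 by ring, per, ih]
  | pred i ih =>
    push_cast at *
    rw [← per (t + (-(i : ℝ) - 1)), show t + (-(i : ℝ) - 1) + 1 = t + -i by ring, ih]

/-- common radius for finitely many points -/
theorem common (t : ℕ → ℝ) (L : ℕ) (J : ℕ → Prop)
    (h : ∀ j < L, J j → ∃ δ > 0, ∀ s, |s - t j| < δ → G s = G (t j)) :
    ∃ δ > 0, ∀ j < L, J j → ∀ s, |s - t j| < δ → G s = G (t j) := by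
  induction L with
  | zero => exact ⟨1, one_pos, fun j hj => by omega⟩
  | succ L ih =>
    obtain ⟨δ1, h1, H1⟩ := ih (fun j hj => h j (by omega))
    by_cases hJ : J L
    · obtain ⟨δ2, h2, H2⟩ := h L (by omega) hJ
      refine ⟨min δ1 δ2, lt_min h1 h2, fun j hj hJj s hs => ?_⟩
      rcases Nat.lt_succ_iff_lt_or_eq.1 hj with hlt | rfl
      · exact H1 j hlt hJj s (lt_of_lt_of_le hs (min_le_left _ _))
      · exact H2 s (lt_of_lt_of_le hs (min_le_right _ _))
    · refine ⟨δ1, h1, fun j hj hJj s hs => ?_⟩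
      rcases Nat.lt_succ_iff_lt_or_eq.1 hj with hlt | rfl
      · exact H1 j hlt hJj s hs
      · exact absurd hJj hJ

/-- Birkhoff sums -/
def P (β : ℝ) (K : ℕ) : ℤ := ∑ j ∈ Finset.range K, G ((j + 1 : ℕ) * β)

theorem P_add (β : ℝ) (K L : ℕ) :
    P G β (K + L) = P G β K + ∑ j ∈ Finset.range L, G ((K + j + 1 : ℕ) * β) := by
  unfold P
  rw [Finset.sum_range_add]

theorem rot (β : ℝ) (hβ : Irrational β) (per : ∀ t, G (t + 1) = G t)
    (loc : ∀ t : ℝ, (∀ n : ℤ, 12 * t ≠ n) → ∃ δ > 0, ∀ s, |s - t| < δ → G s = G t)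
    (d : ℝ) (n0 : ℤ) (hd : 12 * d = n0) (l r : ℤ) (hlr : l ≠ r)
    (hl : ∃ δ > 0, ∀ s, d - δ < s → s < d → G s = l)
    (hr : ∃ δ > 0, ∀ s, d < s → s < d + δ → G s = r) (B : ℤ) :
    ∃ K, B < |P G β K| := by
  by_contra hcon
  push Not at hcon
  have irr : ∀ k : ℤ, k ≠ 0 → ∀ q : ℤ, ∀ n : ℤ, 12 * ((k : ℝ) * β + (q : ℝ) / 12) ≠ n := by
    intro k hk q n h
    have h1 : Irrational (((12 * k : ℤ) : ℝ) * β) := hβ.intCast_mul (by omega)
    apply h1.ne_int (n - q)
    push_cast
    linarith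
  -- max and min
  have hfin : (Set.range (P G β)).Finite := by
    apply (Set.finite_Icc (-B) B).subset
    rintro _ ⟨K, rfl⟩
    have := abs_le.1 (hcon K)
    exact ⟨this.1, this.2⟩
  have hne : (Set.range (P G β)).Nonempty := ⟨_, 0, rfl⟩
  obtain ⟨_, ⟨x, rfl⟩, hx⟩ := Set.exists_max_image (Set.range (P G β)) id hfin hne
  obtain ⟨_, ⟨y, rfl⟩, hy⟩ := Set.exists_min_image (Set.range (P G β)) id hfin hne
  have hx' : ∀ K, P G β K ≤ P G β x := fun K => hx _ ⟨K, rfl⟩
  have hy' : ∀ K, P G β y ≤ P G β K := fun K => hy _ ⟨K, rfl⟩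
  -- step 1
  have step1 : ∃ a : ℕ, ∃ δ > 0, ∀ K : ℕ, ∀ n : ℤ, |K * β - n - a * β| < δ →
      P G β K = P G β a := by
    have key : ∀ a L : ℕ, ∃ δ > 0, ∀ K : ℕ, ∀ n : ℤ, |K * β - n - a * β| < δ →
        P G β (K + L) - P G β K = P G β (a + L) - P G β a := by
      intro a L
      obtain ⟨δ, hδ, H⟩ := common G (fun j => ((a + j + 1 : ℕ) : ℝ) * β) L (fun _ => True)
        (fun j _ _ => loc _ (by
          intro n hn
          apply irr ((a + j + 1 : ℕ) : ℤ) (by positivity) 0 n
          rw [← hn]; push_cast; ring))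
      refine ⟨δ, hδ, fun K n hK => ?_⟩
      rw [P_add, P_add]
      have : ∑ j ∈ Finset.range L, G ((K + j + 1 : ℕ) * β)
          = ∑ j ∈ Finset.range L, G ((a + j + 1 : ℕ) * β) := by
        apply Finset.sum_congr rfl
        intro j hj
        rw [← H j (Finset.mem_range.1 hj) trivial (((K + j + 1 : ℕ) : ℝ) * β - n)
          (by rw [show ((K + j + 1 : ℕ) : ℝ) * β - n - ((a + j + 1 : ℕ) : ℝ) * β
                = K * β - n - a * β by push_cast; ring]; exact hK)]
        rw [← per_int G per (((K + j + 1 : ℕ) : ℝ) * β - n) n]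
        congr 1; ring
      rw [this]; ring
    rcases le_total y x with h | h
    · obtain ⟨δ, hδ, H⟩ := key y (x - y)
      refine ⟨y, δ, hδ, fun K n hK => ?_⟩
      have h1 := H K n hK
      rw [Nat.add_sub_cancel' h] at h1
      have h2 := hx' (K + (x - y))
      have h3 := hy' K
      omega
    · obtain ⟨δ, hδ, H⟩ := key x (y - x)
      refine ⟨x, δ, hδ, fun K n hK => ?_⟩
      have h1 := H K n hK
      rw [Nat.add_sub_cancel' h] at h1
      have h2 := hy' (K + (y - x))
      have h3 := hx' K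
      omega
  obtain ⟨a, δ, hδ, Ha⟩ := step1
  -- step 2
  obtain ⟨m, nm, hm1, hm2⟩ := dense_fwd β hβ (a * β - δ - d) (a * β + δ - d) (by linarith)
  obtain ⟨m', nm', hm1', hm2'⟩ := dense_fwd (-β) hβ.neg (a * β - δ - d + β) (a * β + δ - d + β)
    (by linarith)
  -- points: d + m β - nm ∈ U ; d - (m'+1) β - nm' ∈ U
  set ρ1 : ℝ := min (d + m * β - nm - (a * β - δ)) (a * β + δ - (d + m * β - nm)) with hρ1
  set ρ2 : ℝ := min (d - (m' + 1) * β - nm' - (a * β - δ)) (a * β + δ - (d - (m' + 1) * β - nm'))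
    with hρ2
  have hρ1p : 0 < ρ1 := lt_min (by linarith) (by linarith)
  have hρ2p : 0 < ρ2 := lt_min (by linarith) (by linarith)
  obtain ⟨δ3, hδ3, H3⟩ := common G (fun j => d + ((j : ℝ) - m') * β) (m + m' + 1)
    (fun j => j ≠ m') (fun j _ hj => loc _ (by
      intro n hn
      apply irr ((j : ℤ) - m') (by omega) n0 n
      rw [← hn, ← hd]; push_cast; ring))
  obtain ⟨δl, hδl, Hl⟩ := hl
  obtain ⟨δr, hδr, Hr⟩ := hr
  set ε : ℝ := min (min ρ1 ρ2) (min δ3 (min δl δr)) with hε
  have hεp : 0 < ε := lt_min (lt_min hρ1p hρ2p) (lt_min hδ3 (lt_min hδl hδr))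
  have e1 : ε ≤ ρ1 := le_trans (min_le_left _ _) (min_le_left _ _)
  have e2 : ε ≤ ρ2 := le_trans (min_le_left _ _) (min_le_right _ _)
  have e3 : ε ≤ δ3 := le_trans (min_le_right _ _) (min_le_left _ _)
  have e4 : ε ≤ δl := le_trans (le_trans (min_le_right _ _) (min_le_right _ _)) (min_le_left _ _)
  have e5 : ε ≤ δr := le_trans (le_trans (min_le_right _ _) (min_le_right _ _)) (min_le_right _ _)
  have r11 : ρ1 ≤ d + m * β - nm - (a * β - δ) := min_le_left _ _
  have r12 : ρ1 ≤ a * β + δ - (d + m * β - nm) := min_le_right _ _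
  have r21 : ρ2 ≤ d - (m' + 1) * β - nm' - (a * β - δ) := min_le_left _ _
  have r22 : ρ2 ≤ a * β + δ - (d - (m' + 1) * β - nm') := min_le_right _ _
  -- a general statement for a start point
  have gen : ∀ (K : ℕ) (n : ℤ) (η : ℝ), K * β - n = d - (m' + 1) * β + η → |η| < ε →
      (∑ j ∈ Finset.range (m + m' + 1), G ((K + j + 1 : ℕ) * β)) = 0 ∧
      ∀ j ∈ Finset.range (m + m' + 1), G ((K + j + 1 : ℕ) * β)
        = G (d + ((j : ℝ) - m') * β + η) := by
    intro K n η hK hη
    have hη' := abs_lt.1 hη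
    have h1 : P G β K = P G β a := by
      apply Ha K (n + nm')
      rw [abs_lt]; push_cast
      constructor <;> linarith
    have h2 : P G β (K + (m + m' + 1)) = P G β a := by
      apply Ha _ (n + nm)
      rw [abs_lt]; push_cast
      constructor <;> linarith
    rw [P_add] at h2
    refine ⟨by linarith, fun j _ => ?_⟩
    rw [show ((K + j + 1 : ℕ) : ℝ) * β = (d + ((j : ℝ) - m') * β + η) + n by
      push_cast; linarith]
    exact per_int G per _ n
  obtain ⟨K1, n1, hK1, hK1'⟩ := dense_fwd β hβ (d - (m' + 1) * β) (d - (m' + 1) * β + ε)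
    (by linarith)
  obtain ⟨K2, n2, hK2, hK2'⟩ := dense_fwd β hβ (d - (m' + 1) * β - ε) (d - (m' + 1) * β)
    (by linarith)
  obtain ⟨s1, t1⟩ := gen K1 n1 (K1 * β - n1 - (d - (m' + 1) * β)) (by ring)
    (by rw [abs_lt]; constructor <;> linarith)
  obtain ⟨s2, t2⟩ := gen K2 n2 (K2 * β - n2 - (d - (m' + 1) * β)) (by ring)
    (by rw [abs_lt]; constructor <;> linarith)
  rw [Finset.sum_congr rfl t1] at s1
  rw [Finset.sum_congr rfl t2] at s2
  set η1 : ℝ := K1 * β - n1 - (d - (m' + 1) * β) with hη1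
  set η2 : ℝ := K2 * β - n2 - (d - (m' + 1) * β) with hη2
  have hmem : m' ∈ Finset.range (m + m' + 1) := Finset.mem_range.2 (by omega)
  rw [← Finset.add_sum_erase _ _ hmem] at s1 s2
  have h3 : ∑ j ∈ (Finset.range (m + m' + 1)).erase m', G (d + ((j : ℝ) - m') * β + η1)
      = ∑ j ∈ (Finset.range (m + m' + 1)).erase m', G (d + ((j : ℝ) - m') * β + η2) := by
    apply Finset.sum_congr rfl
    intro j hj
    rw [Finset.mem_erase, Finset.mem_range] at hj
    exact (H3 j hj.2 hj.1 _ (by rw [abs_lt]; constructor <;> linarith)).trans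
      (H3 j hj.2 hj.1 _ (by rw [abs_lt]; constructor <;> linarith)).symm
  have h4 : G (d + ((m' : ℝ) - m') * β + η1) = r := by
    apply Hr <;> nlinarith
  have h5 : G (d + ((m' : ℝ) - m') * β + η2) = l := by
    apply Hl <;> nlinarith
  rw [h4] at s1
  rw [h5] at s2
  rw [h3] at s1
  apply hlr
  linarith

end Pool.Agent.H125e.UB2
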