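import Pool.Agent.H125e.UB1
import Pool.Agent.H125e.UB2

/-! The signed counts at `4·13^(2K)` are unbounded. -/

namespace Pool.Agent.H125e.UB3

open UB1 UB2 Real Topology Filter

noncomputable def β : ℝ := Real.arccos (-11 / 13) / (2 * π)

theorem two_pi_β : 2 * π * β = Real.arccos (-11 / 13) := by
  unfold β
  have := Real.pi_pos
  field_simp

theorem cosβ : cos (2 * π * β) = -11 / 13 := by
  rw [two_pi_β, Real.cos_arccos] <;> norm_num

theorem sinβ : sin (2 * π * β) = 4 * √3 / 13 := by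
  rw [two_pi_β, Real.sin_arccos]
  rw [show (1 : ℝ) - (-11 / 13) ^ 2 = (4 / 13) ^ 2 * 3 by norm_num]
  rw [Real.sqrt_mul (by norm_num), Real.sqrt_sq (by norm_num)]
  ring

noncomputable def H (t : ℝ) : ℤ :=
  if 0 < cos (2 * π * t) ∧ 0 < sin (2 * π * t) then 1
  else if cos (2 * π * t) < 0 ∧ sin (2 * π * t) < 0 then -1 else 0

noncomputable def G (t : ℝ) : ℤ := H (1 / 3 + t) + H (1 / 3 - t)

theorem H_per (t : ℝ) : H (t + 1) = H t := by
  unfold H
  rw [show 2 * π * (t + 1) = 2 * π * t + 2 * π by ring, Real.cos_add_two_pi, Real.sin_add_two_pi]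

theorem G_per (t : ℝ) : G (t + 1) = G t := by
  unfold G
  rw [show 1 / 3 + (t + 1) = (1 / 3 + t) + 1 by ring, H_per]
  rw [← H_per (1 / 3 - (t + 1)), show 1 / 3 - (t + 1) + 1 = 1 / 3 - t by ring]

theorem cos_zero (u : ℝ) (h : cos (2 * π * u) = 0) : ∃ k : ℤ, 12 * u = ((3 * (2 * k + 1) : ℤ) : ℝ) := by
  obtain ⟨k, hk⟩ := Real.cos_eq_zero_iff.1 h
  refine ⟨k, ?_⟩
  have := Real.pi_pos
  have h2 : π * (12 * u) = π * (3 * (2 * k + 1)) := by linear_combination 6 * hk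
  have := mul_left_cancel₀ this.ne' h2
  push_cast; exact this

theorem sin_zero (u : ℝ) (h : sin (2 * π * u) = 0) : ∃ k : ℤ, 12 * u = ((6 * k : ℤ) : ℝ) := by
  obtain ⟨k, hk⟩ := Real.sin_eq_zero_iff.1 h
  refine ⟨k, ?_⟩
  have := Real.pi_pos
  have h2 : π * (12 * u) = π * (6 * k) := by linear_combination -6 * hk
  have := mul_left_cancel₀ this.ne' h2
  push_cast; exact this

theorem sgn (f : ℝ → ℝ) (hf : Continuous f) (t : ℝ) (h : f t ≠ 0) :
    ∀ᶠ s in 𝓝 t, (0 < f s ↔ 0 < f t) ∧ (f s < 0 ↔ f t < 0) := by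
  rcases lt_or_gt_of_ne h with h | h
  · filter_upwards [(hf.tendsto t).eventually_lt_const h] with s hs
    constructor <;> constructor <;> intro <;> linarith
  · filter_upwards [(hf.tendsto t).eventually_const_lt h] with s hs
    constructor <;> constructor <;> intro <;> linarith

theorem H_loc (t : ℝ) (hc : cos (2 * π * t) ≠ 0) (hs : sin (2 * π * t) ≠ 0) :
    ∃ δ > 0, ∀ s, |s - t| < δ → H s = H t := by
  have h1 := sgn (fun s => cos (2 * π * s)) (by fun_prop) t hc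
  have h2 := sgn (fun s => sin (2 * π * s)) (by fun_prop) t hs
  obtain ⟨δ, hδ, h⟩ := Metric.eventually_nhds_iff.1 (h1.and h2)
  refine ⟨δ, hδ, fun s hs' => ?_⟩
  obtain ⟨⟨a1, a2⟩, a3, a4⟩ := h (by rwa [Real.dist_eq])
  unfold H
  simp only [a1, a2, a3, a4]

theorem G_loc (t : ℝ) (ht : ∀ n : ℤ, 12 * t ≠ n) : ∃ δ > 0, ∀ s, |s - t| < δ → G s = G t := by
  obtain ⟨δ1, h1, H1⟩ := H_loc (1 / 3 + t)
    (by intro h; obtain ⟨k, hk⟩ := cos_zero _ h
        apply ht (3 * (2 * k + 1) - 4); push_cast at *; linarith)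
    (by intro h; obtain ⟨k, hk⟩ := sin_zero _ h
        apply ht (6 * k - 4); push_cast at *; linarith)
  obtain ⟨δ2, h2, H2⟩ := H_loc (1 / 3 - t)
    (by intro h; obtain ⟨k, hk⟩ := cos_zero _ h
        apply ht (4 - 3 * (2 * k + 1)); push_cast at *; linarith)
    (by intro h; obtain ⟨k, hk⟩ := sin_zero _ h
        apply ht (4 - 6 * k); push_cast at *; linarith)
  refine ⟨min δ1 δ2, lt_min h1 h2, fun s hs => ?_⟩
  have hs' := abs_lt.1 hs
  have m1 : min δ1 δ2 ≤ δ1 := min_le_left _ _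
  have m2 : min δ1 δ2 ≤ δ2 := min_le_right _ _
  unfold G
  rw [H1 (1 / 3 + s) (by rw [abs_lt]; constructor <;> linarith),
    H2 (1 / 3 - s) (by rw [abs_lt]; constructor <;> linarith)]

theorem near : ∃ δ > 0, ∀ s : ℝ, |s - 2 / 3| < δ → H s = H (2 / 3) := by
  apply H_loc
  · intro h; obtain ⟨k, hk⟩ := cos_zero _ h
    have : (8 : ℤ) = 3 * (2 * k + 1) := by
      have h2 : ((8 : ℤ) : ℝ) = ((3 * (2 * k + 1) : ℤ) : ℝ) := by rw [← hk]; norm_num
      exact_mod_cast h2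
    omega
  · intro h; obtain ⟨k, hk⟩ := sin_zero _ h
    have : (8 : ℤ) = 6 * k := by
      have h2 : ((8 : ℤ) : ℝ) = ((6 * k : ℤ) : ℝ) := by rw [← hk]; norm_num
      exact_mod_cast h2
    omega

theorem H_right (u : ℝ) (h0 : 0 < u) (h1 : u < 1 / 4) : H u = 1 := by
  unfold H
  have := Real.pi_pos
  rw [if_pos]
  constructor
  · apply Real.cos_pos_of_mem_Ioo
    constructor <;> nlinarith
  · apply Real.sin_pos_of_pos_of_lt_pi <;> nlinarith

theorem H_left (u : ℝ) (h0 : u < 0) (h1 : -(1 / 4) < u) : H u = 0 := by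
  unfold H
  have := Real.pi_pos
  have hc : 0 < cos (2 * π * u) := by
    apply Real.cos_pos_of_mem_Ioo
    constructor <;> nlinarith
  have hs : sin (2 * π * u) < 0 := by
    apply Real.sin_neg_of_neg_of_neg_pi_lt <;> nlinarith
  rw [if_neg (by intro h; linarith [h.2]), if_neg (by intro h; linarith [h.1])]

theorem V_trig1 (j : ℕ) : ((V 1 (2 * j)).1 : ℝ) = 2 * 13 ^ j * cos (2 * π * (1 / 3 + j * β)) ∧
    √3 * ((V 1 (2 * j)).2 : ℝ) = 2 * 13 ^ j * sin (2 * π * (1 / 3 + j * β)) := by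
  have s3 : √3 * √3 = 3 := Real.mul_self_sqrt (by norm_num)
  induction j with
  | zero =>
    have e : 2 * π * (1 / 3 + ((0 : ℕ) : ℝ) * β) = π - π / 3 := by push_cast; ring
    rw [e, Real.cos_pi_sub, Real.sin_pi_sub, Real.cos_pi_div_three, Real.sin_pi_div_three]
    simp [V]
    ring
  | succ j ih =>
    obtain ⟨h1, h2⟩ := ih
    have e : 2 * π * (1 / 3 + ((j + 1 : ℕ) : ℝ) * β) = 2 * π * (1 / 3 + j * β) + 2 * π * β := by
      push_cast; ring
    rw [e, Real.cos_add, Real.sin_add, cosβ, sinβ]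
    have ev : V 1 (2 * (j + 1)) = (-11 * (V 1 (2 * j)).1 - 12 * (V 1 (2 * j)).2,
        4 * (V 1 (2 * j)).1 - 11 * (V 1 (2 * j)).2) := by
      rw [show 2 * (j + 1) = 2 * j + 1 + 1 by ring, V, V]
      ext <;> dsimp only <;> ring
    rw [ev]
    push_cast
    rw [pow_succ]
    constructor
    · linear_combination (-11) * h1 - 4 * √3 * h2 - 4 * ((V 1 (2 * j)).2 : ℝ) * (- s3)
    · linear_combination 4 * √3 * h1 - 11 * h2

theorem V_trig2 (j : ℕ) : ((V (-1) (2 * j)).1 : ℝ) = 2 * 13 ^ j * cos (2 * π * (1 / 3 - j * β)) ∧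
    √3 * ((V (-1) (2 * j)).2 : ℝ) = 2 * 13 ^ j * sin (2 * π * (1 / 3 - j * β)) := by
  have s3 : √3 * √3 = 3 := Real.mul_self_sqrt (by norm_num)
  induction j with
  | zero =>
    have e : 2 * π * (1 / 3 - ((0 : ℕ) : ℝ) * β) = π - π / 3 := by push_cast; ring
    rw [e, Real.cos_pi_sub, Real.sin_pi_sub, Real.cos_pi_div_three, Real.sin_pi_div_three]
    simp [V]
    ring
  | succ j ih =>
    obtain ⟨h1, h2⟩ := ih
    have e : 2 * π * (1 / 3 - ((j + 1 : ℕ) : ℝ) * β) = 2 * π * (1 / 3 - j * β) - 2 * π * β := by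
      push_cast; ring
    rw [e, Real.cos_sub, Real.sin_sub, cosβ, sinβ]
    have ev : V (-1) (2 * (j + 1)) = (-11 * (V (-1) (2 * j)).1 + 12 * (V (-1) (2 * j)).2,
        -4 * (V (-1) (2 * j)).1 - 11 * (V (-1) (2 * j)).2) := by
      rw [show 2 * (j + 1) = 2 * j + 1 + 1 by ring, V, V]
      ext <;> dsimp only <;> ring
    rw [ev]
    push_cast
    rw [pow_succ]
    constructor
    · linear_combination (-11) * h1 + 4 * √3 * h2 - 4 * ((V (-1) (2 * j)).2 : ℝ) * s3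
    · linear_combination -4 * √3 * h1 - 11 * h2

theorem mneg (a b : ℝ) (ha : 0 < a) : a * b < 0 ↔ b < 0 :=
  ⟨fun h => by_contra fun h' => absurd h (not_lt.2 (mul_nonneg ha.le (not_lt.1 h'))),
    mul_neg_of_pos_of_neg ha⟩

theorem g_H (v : ℤ × ℤ) (j : ℕ) (t : ℝ) (h1 : (v.1 : ℝ) = 2 * 13 ^ j * cos (2 * π * t))
    (h2 : √3 * (v.2 : ℝ) = 2 * 13 ^ j * sin (2 * π * t)) : g v = - H t := by
  have hp : (0 : ℝ) < 2 * 13 ^ j := by positivity
  have h3 : (0 : ℝ) < √3 := by positivity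
  have a1 : 0 < v.1 ↔ 0 < cos (2 * π * t) := by
    rw [← Int.cast_pos (R := ℝ), h1]; exact mul_pos_iff_of_pos_left hp
  have a2 : 0 < v.2 ↔ 0 < sin (2 * π * t) := by
    rw [← Int.cast_pos (R := ℝ), ← mul_pos_iff_of_pos_left h3, h2]
    exact mul_pos_iff_of_pos_left hp
  have a3 : v.1 < 0 ↔ cos (2 * π * t) < 0 := by
    rw [← Int.cast_lt_zero (R := ℝ), h1]; exact mneg _ _ hp
  have a4 : v.2 < 0 ↔ sin (2 * π * t) < 0 := by
    rw [← Int.cast_lt_zero (R := ℝ), ← mneg _ _ h3, h2]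
    exact mneg _ _ hp
  unfold g H
  simp only [a1, a2, a3, a4]
  split_ifs <;> simp

theorem irrβ : Irrational β := by
  rintro ⟨q, hq⟩
  have hN : 0 < q.den := q.den_pos
  have h1 : (q.den : ℝ) * β = q.num := by
    rw [← hq]
    have := Rat.den_mul_eq_num (q := q)
    exact_mod_cast this
  have h2 := (V_trig1 q.den).1
  rw [h1, show 2 * π * (1 / 3 + (q.num : ℝ)) = (π - π / 3) + q.num * (2 * π) by ring,
    Real.cos_add_int_mul_two_pi, Real.cos_pi_sub, Real.cos_pi_div_three] at h2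
  have h3 : (V 1 (2 * q.den)).1 = -13 ^ q.den := by
    have : ((V 1 (2 * q.den)).1 : ℝ) = ((-13 ^ q.den : ℤ) : ℝ) := by rw [h2]; push_cast; ring
    exact_mod_cast this
  apply V_ndvd 1 (Or.inl rfl) (2 * q.den)
  rw [h3, dvd_neg]
  exact dvd_pow_self _ hN.ne'

theorem unbounded (B : ℤ) : ∃ K : ℕ, 1 ≤ K ∧ B < |r (4 * 13 ^ (2 * K))| := by
  obtain ⟨δ, hδ, hn⟩ := near
  obtain ⟨K, hK⟩ := rot G β irrβ G_per G_loc (-1 / 3) (-4) (by norm_num) (0 + H (2 / 3))
    (1 + H (2 / 3)) (by omega)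
    ⟨min δ (1 / 4), lt_min hδ (by norm_num), fun s hs1 hs2 => by
      have m1 : min δ (1 / 4) ≤ δ := min_le_left _ _
      have m2 : min δ (1 / 4) ≤ 1 / 4 := min_le_right _ _
      unfold G
      rw [H_left (1 / 3 + s) (by linarith) (by linarith),
        hn (1 / 3 - s) (by rw [abs_lt]; constructor <;> linarith)]⟩
    ⟨min δ (1 / 4), lt_min hδ (by norm_num), fun s hs1 hs2 => by
      have m1 : min δ (1 / 4) ≤ δ := min_le_left _ _
      have m2 : min δ (1 / 4) ≤ 1 / 4 := min_le_right _ _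
      unfold G
      rw [H_right (1 / 3 + s) (by linarith) (by linarith),
        hn (1 / 3 - s) (by rw [abs_lt]; constructor <;> linarith)]⟩
    (max B 0 + |r 4|)
  have e : r (4 * 13 ^ (2 * K)) = r 4 - P G β K := by
    rw [r_even K, sub_eq_add_neg]
    congr 1
    unfold P
    rw [← Finset.sum_neg_distrib]
    apply Finset.sum_congr rfl
    intro j _
    rw [g_H _ (j + 1) _ (V_trig1 (j + 1)).1 (V_trig1 (j + 1)).2,
      g_H _ (j + 1) _ (V_trig2 (j + 1)).1 (V_trig2 (j + 1)).2]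
    unfold G
    ring
  refine ⟨K, ?_, ?_⟩
  · rcases Nat.eq_zero_or_pos K with rfl | h
    · exfalso
      simp only [P, Finset.range_zero, Finset.sum_empty, abs_zero] at hK
      have := abs_nonneg (r 4)
      have := le_max_right B 0
      linarith
    · exact h
  · rw [e]
    have h1 := abs_sub_abs_le_abs_sub (P G β K) (r 4)
    rw [abs_sub_comm] at h1
    have := le_max_left B 0
    linarith

end Pool.Agent.H125e.UB3
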