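import Pool.Agent.H125e.UB3
import Pool.Agent.H125d.FT3

/-! The series and its coefficients. -/

namespace Pool.Agent.H125e.UB4

open PowerSeries UB1
open scoped PowerSeries.WithPiTopology

/-- `(∑ q^{6n²+n}(1-q^{4n+1})) (∑ q^{2n²+3n}) + (∑ q^{6n²+7n+1}(1-q^{4n+3})) (∑ q^{2n²+n})`,
all sums over `n ≥ 0`. -/
noncomputable def series : ℤ⟦X⟧ :=
  (∑' n : ℕ, X ^ (6 * n ^ 2 + n) * (1 - X ^ (4 * n + 1))) * (∑' n : ℕ, X ^ (2 * n ^ 2 + 3 * n)) +
  (∑' n : ℕ, X ^ (6 * n ^ 2 + 7 * n + 1) * (1 - X ^ (4 * n + 3))) *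
    (∑' n : ℕ, X ^ (2 * n ^ 2 + n))

noncomputable def th (e : ℕ → ℕ) : ℤ⟦X⟧ :=
  PowerSeries.mk fun k => ∑ n ∈ Finset.range (k + 1), if e n = k then 1 else 0

theorem hs (e : ℕ → ℕ) (he : ∀ n, n ≤ e n) : HasSum (fun n => (X : ℤ⟦X⟧) ^ (e n)) (th e) := by
  have := _root_.H125d.FT.hasSum_mono e (fun _ => 1) he
  simpa [th] using this

def Nn (e f : ℕ → ℕ) (n : ℕ) : ℕ :=
  (((Finset.range (n + 1)) ×ˢ (Finset.range (n + 1))).filter (fun p => e p.1 + f p.2 = n)).card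

theorem coeff_th (e : ℕ → ℕ) (he : ∀ n, n ≤ e n) (n i : ℕ) (hi : i ≤ n) :
    coeff i (th e) = ∑ m ∈ Finset.range (n + 1), if e m = i then (1 : ℤ) else 0 := by
  unfold th
  rw [coeff_mk]
  apply Finset.sum_subset
  · intro m hm
    rw [Finset.mem_range] at *
    omega
  · intro m _ hm
    rw [if_neg]
    intro h
    apply hm
    rw [Finset.mem_range]
    have := he m
    omega

theorem coeff_mul_th (e f : ℕ → ℕ) (he : ∀ n, n ≤ e n) (hf : ∀ n, n ≤ f n) (n : ℕ) :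
    coeff n (th e * th f) = (Nn e f n : ℤ) := by
  rw [coeff_mul]
  have h1 : ∀ p ∈ Finset.HasAntidiagonal.antidiagonal n, coeff p.1 (th e) * coeff p.2 (th f) =
      ∑ m ∈ Finset.range (n + 1), ∑ k ∈ Finset.range (n + 1),
        (if e m = p.1 then (1 : ℤ) else 0) * (if f k = p.2 then 1 else 0) := by
    intro p hp
    rw [Finset.HasAntidiagonal.mem_antidiagonal] at hp
    rw [coeff_th e he n p.1 (by omega), coeff_th f hf n p.2 (by omega), Finset.sum_mul_sum]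
  rw [Finset.sum_congr rfl h1, Finset.sum_comm]
  unfold Nn
  rw [Finset.card_filter]
  push_cast
  rw [Finset.sum_product]
  apply Finset.sum_congr rfl
  intro m _
  rw [Finset.sum_comm]
  apply Finset.sum_congr rfl
  intro k _
  by_cases h : e m + f k = n
  · simp only [h, if_true]
    rw [Finset.sum_eq_single (e m, f k)]
    · simp
    · intro q hq hne
      by_cases h2 : e m = q.1
      · have h3 : ¬ f k = q.2 := fun h3 => hne (Prod.ext h2.symm h3.symm)
        simp [h3]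
      · simp [h2]
    · intro h4
      exact absurd (Finset.HasAntidiagonal.mem_antidiagonal.2 h) h4
  · simp only [h, if_false]
    apply Finset.sum_eq_zero
    intro q hq
    rw [Finset.HasAntidiagonal.mem_antidiagonal] at hq
    by_cases h2 : e m = q.1
    · have h3 : ¬ f k = q.2 := fun h3 => by omega
      simp [h3]
    · simp [h2]

theorem coeff_series (n : ℕ) : coeff n series =
    (Nn (fun m => 6 * m ^ 2 + m) (fun k => 2 * k ^ 2 + 3 * k) n : ℤ)
    - Nn (fun m => 6 * m ^ 2 + 5 * m + 1) (fun k => 2 * k ^ 2 + 3 * k) n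
    + (Nn (fun m => 6 * m ^ 2 + 7 * m + 1) (fun k => 2 * k ^ 2 + k) n
    - Nn (fun m => 6 * m ^ 2 + 11 * m + 4) (fun k => 2 * k ^ 2 + k) n) := by
  have e1 : ∀ m, m ≤ 6 * m ^ 2 + m := fun m => by nlinarith
  have e2 : ∀ m, m ≤ 6 * m ^ 2 + 5 * m + 1 := fun m => by nlinarith
  have e3 : ∀ m, m ≤ 6 * m ^ 2 + 7 * m + 1 := fun m => by nlinarith
  have e4 : ∀ m, m ≤ 6 * m ^ 2 + 11 * m + 4 := fun m => by nlinarith
  have e5 : ∀ m, m ≤ 2 * m ^ 2 + 3 * m := fun m => by nlinarith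
  have e6 : ∀ m, m ≤ 2 * m ^ 2 + m := fun m => by nlinarith
  have t1 : (∑' n : ℕ, (X : ℤ⟦X⟧) ^ (6 * n ^ 2 + n) * (1 - X ^ (4 * n + 1))) =
      th (fun m => 6 * m ^ 2 + m) - th (fun m => 6 * m ^ 2 + 5 * m + 1) := by
    rw [← ((hs _ e1).sub (hs _ e2)).tsum_eq]
    apply tsum_congr
    intro m
    rw [mul_sub, mul_one, ← pow_add]
    congr 2; ring
  have t3 : (∑' n : ℕ, (X : ℤ⟦X⟧) ^ (6 * n ^ 2 + 7 * n + 1) * (1 - X ^ (4 * n + 3))) =
      th (fun m => 6 * m ^ 2 + 7 * m + 1) - th (fun m => 6 * m ^ 2 + 11 * m + 4) := by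
    rw [← ((hs _ e3).sub (hs _ e4)).tsum_eq]
    apply tsum_congr
    intro m
    rw [mul_sub, mul_one, ← pow_add]
    congr 2; ring
  unfold series
  rw [t1, t3, (hs _ e5).tsum_eq, (hs _ e6).tsum_eq, sub_mul, sub_mul, map_add, map_sub, map_sub,
    coeff_mul_th _ _ e1 e5, coeff_mul_th _ _ e2 e5, coeff_mul_th _ _ e3 e6,
    coeff_mul_th _ _ e4 e6]

theorem card_class (a b n : ℕ) (e f : ℕ → ℕ) (he : ∀ m, m ≤ e m) (hf : ∀ m, m ≤ f m)
    (h : ∀ m k, (12 * m + a) ^ 2 + 3 * (4 * k + b) ^ 2 = 24 * (e m + f k) + 28)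
    (ha : a < 12) (hb : b < 4) (hodd : a % 2 = 1) (hab : (a + b) % 4 = 0) :
    Nn e f n = ((S (24 * n + 28)).filter (fun p => p.1 % 12 = a)).card := by
  unfold Nn
  apply Finset.card_nbij (fun p => (12 * p.1 + a, 4 * p.2 + b))
  · intro p hp
    rw [Finset.mem_coe, Finset.mem_filter] at hp
    rw [Finset.mem_coe, Finset.mem_filter, mem_S]
    dsimp only
    refine ⟨⟨by rw [h, hp.2], by omega, by omega⟩, by omega⟩
  · intro p _ q _ hpq
    simp only [Prod.mk.injEq] at hpq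
    ext <;> omega
  · intro q hq
    rw [Finset.mem_coe, Finset.mem_filter, mem_S] at hq
    obtain ⟨⟨h1, h2, h3⟩, h4⟩ := hq
    have hx : q.1 = 12 * (q.1 / 12) + a := by omega
    have hy : q.2 = 4 * (q.2 / 4) + b := by omega
    refine ⟨(q.1 / 12, q.2 / 4), ?_, ?_⟩
    · rw [hx, hy, h] at h1
      have h5 : e (q.1 / 12) + f (q.2 / 4) = n := by omega
      have h6 := he (q.1 / 12)
      have h7 := hf (q.2 / 4)
      rw [Finset.mem_coe, Finset.mem_filter, Finset.mem_product, Finset.mem_range,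
        Finset.mem_range]
      dsimp only
      refine ⟨⟨by omega, by omega⟩, h5⟩
    · ext
      · dsimp only; exact hx.symm
      · dsimp only; exact hy.symm

theorem r_class (n : ℕ) : r (24 * n + 28) =
    (((S (24 * n + 28)).filter (fun p => p.1 % 12 = 1)).card : ℤ)
    - ((S (24 * n + 28)).filter (fun p => p.1 % 12 = 5)).card
    + (((S (24 * n + 28)).filter (fun p => p.1 % 12 = 7)).card
    - ((S (24 * n + 28)).filter (fun p => p.1 % 12 = 11)).card) := by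
  unfold r
  rw [Finset.card_filter, Finset.card_filter, Finset.card_filter, Finset.card_filter]
  push_cast
  rw [← Finset.sum_sub_distrib, ← Finset.sum_sub_distrib, ← Finset.sum_add_distrib]
  apply Finset.sum_congr rfl
  intro p hp
  rw [mem_S] at hp
  obtain ⟨h1, h2, -⟩ := hp
  have h3 : p.1 % 3 ≠ 0 := by
    intro h
    obtain ⟨k, hk⟩ : 3 ∣ p.1 := Nat.dvd_of_mod_eq_zero h
    rw [hk] at h1
    have : 3 * (3 * k ^ 2 + p.2 ^ 2) = 24 * n + 28 := by rw [← h1]; ring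
    omega
  have h4 : p.1 % 12 = 1 ∨ p.1 % 12 = 5 ∨ p.1 % 12 = 7 ∨ p.1 % 12 = 11 := by omega
  unfold chi
  rcases h4 with h4 | h4 | h4 | h4
  · have h5 : p.1 % 3 = 1 := by omega
    simp [h4, h5]
  · have h5 : p.1 % 3 = 2 := by omega
    simp [h4, h5]
  · have h5 : p.1 % 3 = 1 := by omega
    simp [h4, h5]
  · have h5 : p.1 % 3 = 2 := by omega
    simp [h4, h5]

theorem coeff_eq_r (n : ℕ) : coeff n series = r (24 * n + 28) := by
  have e1 : ∀ m, m ≤ 6 * m ^ 2 + m := fun m => by nlinarith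
  have e2 : ∀ m, m ≤ 6 * m ^ 2 + 5 * m + 1 := fun m => by nlinarith
  have e3 : ∀ m, m ≤ 6 * m ^ 2 + 7 * m + 1 := fun m => by nlinarith
  have e4 : ∀ m, m ≤ 6 * m ^ 2 + 11 * m + 4 := fun m => by nlinarith
  have e5 : ∀ m, m ≤ 2 * m ^ 2 + 3 * m := fun m => by nlinarith
  have e6 : ∀ m, m ≤ 2 * m ^ 2 + m := fun m => by nlinarith
  rw [coeff_series, r_class,
    card_class 1 3 n _ _ e1 e5 (fun m k => by ring) (by norm_num) (by norm_num) (by norm_num)
      (by norm_num),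
    card_class 5 3 n _ _ e2 e5 (fun m k => by ring) (by norm_num) (by norm_num) (by norm_num)
      (by norm_num),
    card_class 7 1 n _ _ e3 e6 (fun m k => by ring) (by norm_num) (by norm_num) (by norm_num)
      (by norm_num),
    card_class 11 1 n _ _ e4 e6 (fun m k => by ring) (by norm_num) (by norm_num) (by norm_num)
      (by norm_num)]

theorem neg_step (n : ℕ) : coeff (25 * n + 28) series = - coeff n series := by
  rw [coeff_eq_r, coeff_eq_r, ← r25]
  congr 1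
  ring

theorem big (B : ℤ) : ∃ n : ℕ, B < |coeff n series| := by
  obtain ⟨K, hK, h⟩ := UB3.unbounded B
  have h1 : ∃ n : ℕ, 13 ^ (2 * K) = 6 * n + 7 := by
    obtain ⟨k, rfl⟩ : ∃ k, K = k + 1 := ⟨K - 1, by omega⟩
    clear h hK
    induction k with
    | zero => exact ⟨27, by norm_num⟩
    | succ k ih =>
      obtain ⟨n, hn⟩ := ih
      refine ⟨169 * n + 196, ?_⟩
      rw [show 2 * (k + 1 + 1) = 2 * (k + 1) + 2 by ring, pow_add, hn]
      ring
  obtain ⟨n, hn⟩ := h1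
  refine ⟨n, ?_⟩
  rw [coeff_eq_r, show 24 * n + 28 = 4 * 13 ^ (2 * K) by rw [hn]; ring]
  exact h

theorem both : (∀ M : ℤ, ∃ n : ℕ, M < coeff n series) ∧ ∀ M : ℤ, ∃ n : ℕ, coeff n series < -M := by
  have key : ∀ M : ℤ, ∃ n n' : ℕ, M < coeff n series ∧ coeff n' series < -M := by
    intro M
    obtain ⟨n, hn⟩ := big M
    have h1 := neg_step n
    rcases lt_abs.1 hn with h | h
    · exact ⟨n, 25 * n + 28, h, by linarith⟩
    · exact ⟨25 * n + 28, n, by linarith, by linarith⟩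
  exact ⟨fun M => let ⟨n, _, h, _⟩ := key M; ⟨n, h⟩, fun M => let ⟨_, n, _, h⟩ := key M; ⟨n, h⟩⟩

end Pool.Agent.H125e.UB4
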